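import Pool.Agent.Helper45.LG.Base

/-!
# Geometric classes of algebras
-/

set_option autoImplicit false

namespace Pool.Agent.Helper45.LG

open AlgebraicGeometry CategoryTheory Limits NumberField

open scoped TensorProduct

/-- The `K`-algebra `R` is the base change of an algebra `R₀` of finite type over a finite field
`k` all of whose base changes to finite extension fields of `k` belong to the class `P`. -/
def Seed (P : Scheme.{0} → Prop) (K : Type) [Field K] (R : Type) [CommRing R] [Algebra K R] :
    Prop :=
  ∃ (k : Type) (_ : Field k) (_ : Algebra k K) (R₀ : Type) (_ : CommRing R₀) (_ : Algebra k R₀),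
    Finite k ∧ Algebra.FiniteType k R₀ ∧ Nonempty (K ⊗[k] R₀ ≃ₐ[K] R) ∧
    ∀ (k' : Type) [Field k'] [Finite k'] [Algebra k k'], P (Spec (CommRingCat.of (k' ⊗[k] R₀)))

/-- **The geometric class** over a field `K` given by the class `P`: the smallest class of
`K`-algebras which contains `0`, `K` and the algebras `Seed P K` and is closed under isomorphisms,
polynomial rings, two-out-of-three for `R/f`, `R` and `R_f`, direct factors `R/f` with `f ^ 2 = f`,
and descent along the monogenic finite etale Galois extensions `R[x]/(g)` of `R` (here `g` is
monic and splits over `R[x]/(g)`, and `g'(x)` is a unit in `R[x]/(g)`). -/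
inductive Geometric (P : Scheme.{0} → Prop) (K : Type) [Field K] :
    ∀ (R : Type) [CommRing R] [Algebra K R], Prop
  | zero (R : Type) [CommRing R] [Algebra K R] : Subsingleton R → Geometric P K R
  | base : Geometric P K K
  | seed (R : Type) [CommRing R] [Algebra K R] : Seed P K R → Geometric P K R
  | iso (R S : Type) [CommRing R] [Algebra K R] [CommRing S] [Algebra K S] :
      (R ≃ₐ[K] S) → Geometric P K R → Geometric P K S
  | poly (R : Type) [CommRing R] [Algebra K R] : Geometric P K R → Geometric P K (Polynomial R)
  | glue (R : Type) [CommRing R] [Algebra K R] (f : R) : Algebra.FiniteType K R →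
      Geometric P K (R ⧸ Ideal.span {f}) → Geometric P K (Localization.Away f) → Geometric P K R
  | closed (R : Type) [CommRing R] [Algebra K R] (f : R) :
      Geometric P K R → Geometric P K (Localization.Away f) → Geometric P K (R ⧸ Ideal.span {f})
  | opn (R : Type) [CommRing R] [Algebra K R] (f : R) :
      Geometric P K R → Geometric P K (R ⧸ Ideal.span {f}) → Geometric P K (Localization.Away f)
  | summand (R : Type) [CommRing R] [Algebra K R] (f : R) : f * f = f →
      Geometric P K R → Geometric P K (R ⧸ Ideal.span {f})
  | galois (R : Type) [CommRing R] [Algebra K R] (g : Polynomial R) : Algebra.FiniteType K R →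
      g.Monic → 0 < g.natDegree →
      IsUnit (Polynomial.aeval (AdjoinRoot.root g) (Polynomial.derivative g)) →
      (∃ s : Multiset (AdjoinRoot g), g.map (AdjoinRoot.of g) =
        (s.map fun a => Polynomial.X - Polynomial.C a).prod) →
      Geometric P K (AdjoinRoot g) → Geometric P K R

end Pool.Agent.Helper45.LG
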