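import Pool.Agent.Helper45.LG.Spread

/-!
# Spreading out of Galois extensions
-/

set_option autoImplicit false

namespace Pool.Agent.Helper45.LG

open Filter

/-- `R[x]/(g)` is a monogenic finite etale Galois extension -/
structure GalPoly {R : Type} [CommRing R] (g : Polynomial R) : Prop where
  monic : g.Monic
  deg : 0 < g.natDegree
  unit : IsUnit (Polynomial.aeval (AdjoinRoot.root g) (Polynomial.derivative g))
  split : ∃ s : Multiset (AdjoinRoot g), g.map (AdjoinRoot.of g) =
      (s.map fun a => Polynomial.X - Polynomial.C a).prod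

/-- the map `U[x]/(G) → M[x]/(G)` -/
noncomputable def adjMap {U M : Type} [CommRing U] [CommRing M] (φ : U →+* M) (G : Polynomial U) :
    AdjoinRoot G →+* AdjoinRoot (G.map φ) :=
  AdjoinRoot.lift ((AdjoinRoot.of (G.map φ)).comp φ) (AdjoinRoot.root (G.map φ)) (by
    rw [← Polynomial.eval₂_map]
    exact AdjoinRoot.eval₂_root _)

theorem adjMap_of {U M : Type} [CommRing U] [CommRing M] (φ : U →+* M) (G : Polynomial U) (c : U) :
    adjMap φ G (AdjoinRoot.of G c) = AdjoinRoot.of (G.map φ) (φ c) :=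
  AdjoinRoot.lift_of _

theorem adjMap_root {U M : Type} [CommRing U] [CommRing M] (φ : U →+* M) (G : Polynomial U) :
    adjMap φ G (AdjoinRoot.root G) = AdjoinRoot.root (G.map φ) :=
  AdjoinRoot.lift_root _

theorem adjMap_comp {U M : Type} [CommRing U] [CommRing M] (φ : U →+* M) (G : Polynomial U) :
    (adjMap φ G).comp (AdjoinRoot.of G) = (AdjoinRoot.of (G.map φ)).comp φ := by
  ext c
  exact adjMap_of φ G c

theorem adjMap_mk {U M : Type} [CommRing U] [CommRing M] (φ : U →+* M) (G p : Polynomial U) :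
    adjMap φ G (AdjoinRoot.mk G p) = AdjoinRoot.mk (G.map φ) (p.map φ) := by
  have h : (adjMap φ G).comp (AdjoinRoot.mk G) =
      (AdjoinRoot.mk (G.map φ)).comp (Polynomial.mapRingHom φ) := by
    apply Polynomial.ringHom_ext
    · intro c
      simp only [RingHom.comp_apply, AdjoinRoot.mk_C, Polynomial.coe_mapRingHom,
        Polynomial.map_C, adjMap_of]
    · simp only [RingHom.comp_apply, AdjoinRoot.mk_X, Polynomial.coe_mapRingHom,
        Polynomial.map_X, adjMap_root]
  exact congrArg (fun χ : Polynomial U →+* AdjoinRoot (G.map φ) => χ p) h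

theorem adjMap_aeval {U M : Type} [CommRing U] [CommRing M] (φ : U →+* M) (G : Polynomial U) :
    adjMap φ G (Polynomial.aeval (AdjoinRoot.root G) (Polynomial.derivative G)) =
      Polynomial.aeval (AdjoinRoot.root (G.map φ)) (Polynomial.derivative (G.map φ)) := by
  rw [Polynomial.aeval_def, Polynomial.hom_eval₂, adjMap_root, Polynomial.aeval_def,
    Polynomial.derivative_map, Polynomial.eval₂_map]
  congr 1
  exact adjMap_comp φ G

theorem GalPoly.map {U M : Type} [CommRing U] [CommRing M] [Nontrivial M] {G : Polynomial U}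
    (h : GalPoly G) (φ : U →+* M) : GalPoly (G.map φ) where
  monic := h.monic.map φ
  deg := by
    rw [h.monic.natDegree_map]
    exact h.deg
  unit := by
    rw [← adjMap_aeval]
    exact h.unit.map _
  split := by
    obtain ⟨s, hs⟩ := h.split
    refine ⟨s.map (adjMap φ G), ?_⟩
    have h1 := congrArg (Polynomial.map (adjMap φ G)) hs
    rw [Polynomial.map_map, Polynomial.map_multiset_prod, Multiset.map_map, adjMap_comp] at h1
    rw [Polynomial.map_map, Multiset.map_map, h1]
    congr 1
    apply Multiset.map_congr rfl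
    intro a _
    simp

theorem adjMap_injective {U M : Type} [CommRing U] [CommRing M] {φ : U →+* M}
    (hφ : Function.Injective φ) {G : Polynomial U} (hG : G.Monic) :
    Function.Injective (adjMap φ G) := by
  rw [injective_iff_map_eq_zero]
  intro a ha
  obtain ⟨p, rfl⟩ := AdjoinRoot.mk_surjective a
  rw [adjMap_mk, AdjoinRoot.mk_eq_zero, Polynomial.map_dvd_map φ hφ hG] at ha
  exact AdjoinRoot.mk_eq_zero.2 ha

/-- the Galois extension is defined over a finitely generated ring -/
theorem exists_universal {R : Type} [CommRing R] {g : Polynomial R} (h : GalPoly g) :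
    ∃ (U : Type) (_ : CommRing U) (φ : U →+* R) (G : Polynomial U),
      Algebra.FiniteType ℤ U ∧ GalPoly G ∧ G.map φ = g := by
  classical
  obtain ⟨v, hv⟩ := h.unit.exists_right_inv
  obtain ⟨v', rfl⟩ := AdjoinRoot.mk_surjective v
  obtain ⟨s, hs⟩ := h.split
  obtain ⟨F, hF⟩ := AdjoinRoot.mk_surjective (g := g).hasRightInverse
  obtain ⟨S, hS1, hS2, hS3⟩ : ∃ S : Finset R, (∀ c ∈ g.coeffs, c ∈ S) ∧
      (∀ c ∈ v'.coeffs, c ∈ S) ∧ ∀ a ∈ s, ∀ c ∈ (F a).coeffs, c ∈ S := by
    refine ⟨g.coeffs ∪ v'.coeffs ∪ (s.map F).toFinset.biUnion fun a => a.coeffs, ?_, ?_, ?_⟩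
    · intro c hc
      simp only [Finset.mem_union]
      exact Or.inl (Or.inl hc)
    · intro c hc
      simp only [Finset.mem_union]
      exact Or.inl (Or.inr hc)
    · intro a ha c hc
      simp only [Finset.mem_union, Finset.mem_biUnion, Multiset.mem_toFinset, Multiset.mem_map]
      exact Or.inr ⟨F a, ⟨a, ha, rfl⟩, hc⟩
  let A : Subalgebra ℤ R := Algebra.adjoin ℤ (S : Set R)
  let φ : A →+* R := A.val.toRingHom
  have hφ : Function.Injective φ := Subtype.val_injective
  have hlift : ∀ p : Polynomial R, (∀ c ∈ p.coeffs, c ∈ S) → ∃ p₀ : Polynomial A, p₀.map φ = p := by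
    intro p hp
    have h1 : p ∈ Polynomial.lifts φ := by
      rw [Polynomial.lifts_iff_coeff_lifts]
      intro n
      by_cases h0 : p.coeff n = 0
      · rw [h0]
        exact ⟨0, map_zero _⟩
      · exact ⟨⟨p.coeff n, Algebra.subset_adjoin (hp _ (Polynomial.coeff_mem_coeffs h0))⟩, rfl⟩
    exact (Polynomial.mem_lifts _).1 h1
  obtain ⟨G, hG⟩ := hlift g hS1
  obtain ⟨w, hw⟩ := hlift v' hS2
  have hroots : ∀ a ∈ s, ∃ a₀ : Polynomial A, a₀.map φ = F a := fun a ha => hlift _ (hS3 a ha)
  choose! F₀ hF₀ using hroots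
  subst hG
  have hmon : G.Monic := (hφ.monic_map_iff).2 h.monic
  have hinj := adjMap_injective hφ hmon
  refine ⟨A, inferInstance, φ, G, ?_, ⟨hmon, ?_, ?_, ?_⟩, rfl⟩
  · have h1 : (Algebra.adjoin ℤ (S : Set R)).FG := Subalgebra.fg_adjoin_finset S
    have h2 := (Subalgebra.fg_iff_finiteType _).1 h1
    have h3 : (Ring.toIntAlgebra A) = (Subalgebra.algebra A : Algebra ℤ A) := Subsingleton.elim _ _
    rw [h3]
    exact h2
  · have := h.deg
    rwa [Polynomial.natDegree_map_eq_of_injective hφ] at this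
  · refine IsUnit.of_mul_eq_one (AdjoinRoot.mk G w) ?_
    apply hinj
    rw [map_mul, adjMap_aeval, adjMap_mk, hw, hv, map_one]
  · refine ⟨s.map (fun a => AdjoinRoot.mk G (F₀ a)), ?_⟩
    apply Polynomial.map_injective _ hinj
    rw [Polynomial.map_map, adjMap_comp, ← Polynomial.map_map, hs, Polynomial.map_multiset_prod,
      Multiset.map_map, Multiset.map_map]
    congr 1
    apply Multiset.map_congr rfl
    intro a ha
    simp only [Function.comp_apply, Polynomial.map_sub, Polynomial.map_X, Polynomial.map_C,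
      adjMap_mk, hF₀ a ha]
    rw [hF]

theorem Rep.lift_int {U κ π : Type} [CommRing U] {y : κ → U} {e : π → MvPolynomial κ ℤ}
    (hy : Rep y e) (E : Type) [CommRing E] (z : κ → E)
    (hz : ∀ k, MvPolynomial.eval₂ (Int.castRingHom E) z (e k) = 0) :
    ∃ ψ : U →+* E, ∀ j, ψ (y j) = z j := by
  obtain ⟨φ, hφ⟩ := hy.lift E z (fun k => by
    rw [MvPolynomial.aeval_def]
    have : algebraMap ℤ E = Int.castRingHom E := RingHom.ext_int _ _
    rw [this]
    exact hz k)
  exact ⟨φ, hφ⟩

section

variable {C R U σ ρ κ : Type} [CommRing C] [CommRing R] [Algebra C R] [CommRing U]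

/-- evaluation of the integral relations -/
theorem aeval_bind_int {x : σ → R} (r : κ → MvPolynomial σ C) {y : κ → U} (φ : U →+* R)
    (hφ : ∀ k, φ (y k) = MvPolynomial.aeval x (r k)) (q : MvPolynomial κ ℤ) :
    MvPolynomial.aeval x (MvPolynomial.bind₁ r (MvPolynomial.map (Int.castRingHom C) q)) =
      φ (MvPolynomial.aeval y q) := by
  let a : MvPolynomial κ ℤ →+* R := ((MvPolynomial.aeval x : MvPolynomial σ C →ₐ[C] R) :
    MvPolynomial σ C →+* R).comp (((MvPolynomial.bind₁ r : MvPolynomial κ C →ₐ[C] _) :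
    MvPolynomial κ C →+* MvPolynomial σ C).comp (MvPolynomial.map (Int.castRingHom C)))
  let b : MvPolynomial κ ℤ →+* R := φ.comp ((MvPolynomial.aeval y : MvPolynomial κ ℤ →ₐ[ℤ] U) :
    MvPolynomial κ ℤ →+* U)
  have h : a = b := by
    apply MvPolynomial.ringHom_ext
    · intro c
      simp [a, b]
    · intro k
      simp [a, b, hφ]
  exact congrArg (fun χ : MvPolynomial κ ℤ →+* R => χ q) h

theorem aeval_bind_eval₂ {x : σ → R} (r : κ → MvPolynomial σ C) (q : MvPolynomial κ ℤ) :
    MvPolynomial.aeval x (MvPolynomial.bind₁ r (MvPolynomial.map (Int.castRingHom C) q)) =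
      MvPolynomial.eval₂ (Int.castRingHom R) (fun k => MvPolynomial.aeval x (r k)) q := by
  let a : MvPolynomial κ ℤ →+* R := ((MvPolynomial.aeval x : MvPolynomial σ C →ₐ[C] R) :
    MvPolynomial σ C →+* R).comp (((MvPolynomial.bind₁ r : MvPolynomial κ C →ₐ[C] _) :
    MvPolynomial κ C →+* MvPolynomial σ C).comp (MvPolynomial.map (Int.castRingHom C)))
  have h : a = MvPolynomial.eval₂Hom (Int.castRingHom R)
      (fun k => MvPolynomial.aeval x (r k)) := by
    apply MvPolynomial.ringHom_ext
    · intro c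
      simp [a]
    · intro k
      simp [a]
  exact congrArg (fun χ : MvPolynomial κ ℤ →+* R => χ q) h

/-- the polynomial in the variables `σ` and one more variable which represents `G` -/
noncomputable def repPoly (r : κ → MvPolynomial σ C) (γ : ℕ → MvPolynomial κ ℤ) (d : ℕ) :
    MvPolynomial (Option σ) C :=
  ∑ i ∈ Finset.range (d + 1), MvPolynomial.rename some
    (MvPolynomial.bind₁ r (MvPolynomial.map (Int.castRingHom C) (γ i))) *
      MvPolynomial.X none ^ i

theorem aeval_repPoly {x : σ → R} (r : κ → MvPolynomial σ C) {y : κ → U} (φ : U →+* R)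
    (hφ : ∀ k, φ (y k) = MvPolynomial.aeval x (r k)) (G : Polynomial U)
    (γ : ℕ → MvPolynomial κ ℤ) (hγ : ∀ i, MvPolynomial.aeval y (γ i) = G.coeff i) :
    MvPolynomial.aeval (fun j : Option σ => j.elim Polynomial.X (fun i => Polynomial.C (x i)))
      (repPoly r γ G.natDegree) = G.map φ := by
  rw [repPoly, map_sum]
  have h1 : ∀ q : MvPolynomial σ C,
      MvPolynomial.aeval (fun j : Option σ => j.elim Polynomial.X (fun i => Polynomial.C (x i)))
        (MvPolynomial.rename some q) = Polynomial.C (MvPolynomial.aeval x q) := by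
    intro q
    rw [MvPolynomial.aeval_rename]
    have : (MvPolynomial.aeval ((fun j : Option σ => j.elim Polynomial.X
        (fun i => Polynomial.C (x i))) ∘ some) :
        MvPolynomial σ C →ₐ[C] Polynomial R) =
        (Polynomial.CAlgHom (R := C)).comp (MvPolynomial.aeval x) := by
      apply MvPolynomial.algHom_ext
      intro j
      simp
    rw [this]
    rfl
  conv_rhs => rw [G.as_sum_range_C_mul_X_pow, Polynomial.map_sum]
  apply Finset.sum_congr rfl
  intro i _
  rw [map_mul, map_pow, h1, aeval_bind_int r φ hφ, hγ, MvPolynomial.aeval_X, Polynomial.map_mul,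
    Polynomial.map_pow, Polynomial.map_C, Polynomial.map_X]
  rfl

end

theorem exists_rep_int {A : Type} [CommRing A] (hA : Algebra.FiniteType ℤ A) :
    ∃ (n m : ℕ) (x : Fin n → A) (f : Fin m → MvPolynomial (Fin n) ℤ), Rep x f := by
  obtain ⟨n, φ, hφ⟩ := Algebra.FiniteType.iff_quotient_mvPolynomial''.1 hA
  obtain ⟨S, hS⟩ := (isNoetherianRing_iff_ideal_fg _).1 inferInstance (RingHom.ker φ)
  obtain ⟨m, f, hf⟩ : ∃ (m : ℕ) (f : Fin m → MvPolynomial (Fin n) ℤ),
      Set.range f = (S : Set (MvPolynomial (Fin n) ℤ)) := by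
    refine ⟨S.card, fun i => (S.equivFin.symm i : MvPolynomial (Fin n) ℤ), ?_⟩
    ext p
    constructor
    · rintro ⟨i, rfl⟩
      exact (S.equivFin.symm i).2
    · intro hp
      exact ⟨S.equivFin ⟨p, hp⟩, by simp⟩
  have hk : Ideal.span (Set.range f) = RingHom.ker φ := by rw [hf, hS]
  let e : Std f ≃ₐ[ℤ] A :=
    (Ideal.quotientEquivAlgOfEq ℤ hk).trans (Ideal.quotientKerAlgEquivOfSurjective hφ)
  exact ⟨n, m, _, f, (rep_std f).transport e⟩

variable {Q : ∀ (R : Type) [CommRing R], Prop} {K : Type} [Field K] {l : Filter (Subring K)}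

theorem map_repPoly {σ κ : Type} {B : Subring K} {r : κ → MvPolynomial σ K} {r' : κ → Mv B σ}
    (hr : Lifts B r r') (γ : ℕ → MvPolynomial κ ℤ) (d : ℕ) :
    MvPolynomial.map B.subtype (repPoly r' γ d) = repPoly r γ d := by
  rw [repPoly, repPoly, map_sum]
  apply Finset.sum_congr rfl
  intro i _
  rw [map_mul, map_pow, MvPolynomial.map_X, map_rename_some, MvPolynomial.map_bind₁]
  have h1 : (fun k => MvPolynomial.map B.subtype (r' k)) = r := funext hr
  rw [h1, MvPolynomial.map_map]
  congr 5

/-- the Galois extension in the models -/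
theorem gal_model (hQ : MorinRings Q) {C : Type} [CommRing C] (hC : Algebra.FiniteType ℤ C)
    {σ ρ κ : Type} [Finite σ] (f : ρ → MvPolynomial σ C) (r : κ → MvPolynomial σ C) {U : Type}
    [CommRing U] {y : κ → U} {π : Type} {e : π → MvPolynomial κ ℤ} (hy : Rep y e)
    {G : Polynomial U} (hG : GalPoly G) (γ : ℕ → MvPolynomial κ ℤ)
    (hγ : ∀ i, MvPolynomial.aeval y (γ i) = G.coeff i)
    (hrel : ∀ k, MvPolynomial.bind₁ r (MvPolynomial.map (Int.castRingHom C) (e k)) ∈
      Ideal.span (Set.range f))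
    (h : Q (Std (fun i : Option ρ => i.elim (repPoly r γ G.natDegree)
      (fun i => MvPolynomial.rename some (f i))))) : Q (Std f) := by
  have hM := finiteType_std hC f
  rcases subsingleton_or_nontrivial (Std f) with h0 | h0
  · exact hQ.zero _ h0
  let z : κ → Std f := fun k => MvPolynomial.aeval
    (fun j => (Ideal.Quotient.mk (Ideal.span (Set.range f)) (MvPolynomial.X j) : Std f)) (r k)
  obtain ⟨ψ, hφ⟩ := hy.lift_int (Std f) z (fun k => by
    rw [← aeval_bind_eval₂, aeval_mk, Ideal.Quotient.eq_zero_iff_mem]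
    have h1 := hrel k
    have h2 := congrArg (fun χ : MvPolynomial σ C →ₐ[C] MvPolynomial σ C =>
      χ (MvPolynomial.bind₁ r (MvPolynomial.map (Int.castRingHom C) (e k))))
      (MvPolynomial.bind₁_X_left (R := C) (σ := σ))
    have h3 : MvPolynomial.bind₁ MvPolynomial.X
      (MvPolynomial.bind₁ r (MvPolynomial.map (Int.castRingHom C) (e k))) =
      MvPolynomial.bind₁ r (MvPolynomial.map (Int.castRingHom C) (e k)) := h2
    rw [h3]
    exact h1)
  have h1 := hG.map ψ
  refine hQ.gal (Std f) (G.map ψ) hM h1.monic h1.deg h1.unit h1.split ?_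
  have h2 := aeval_repPoly (C := C) r ψ hφ G γ hγ
  obtain ⟨E, -⟩ := (rep_std _).equiv ((rep_std f).poly.quot h2)
  exact hQ.iso _ _ (finiteType_std hC _) E.toRingEquiv h

end Pool.Agent.Helper45.LG
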