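import Pool.Agent.Helper45.LG.GalSpread

/-!
# Spreading out of geometric algebras
-/

set_option autoImplicit false

namespace Pool.Agent.Helper45.LG

open Filter AlgebraicGeometry

open scoped TensorProduct

theorem Spread.gal {Q : ∀ (R : Type) [CommRing R], Prop} {K : Type} [Field K]
    {l : Filter (Subring K)} (hQ : MorinRings Q) (hl : ∀ x : K, ∀ᶠ B in l, x ∈ B)
    (hft : ∀ᶠ B in l, FT B) {R : Type} [CommRing R] [Algebra K R] (hR : Algebra.FiniteType K R)
    {g : Polynomial R} (hg : GalPoly g) (h : Spread Q l (AdjoinRoot g)) : Spread Q l R := by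
  obtain ⟨n, m, x, f, hx⟩ := exists_rep hR
  obtain ⟨U, _, φ, G, hU, hG, hGg⟩ := exists_universal hg
  obtain ⟨a, b, y, e, hy⟩ := exists_rep_int hU
  choose r hr using fun k => hx.surj (φ (y k))
  choose γ hγ using fun i => hy.surj (G.coeff i)
  have hm : ∀ k, MvPolynomial.bind₁ r (MvPolynomial.map (Int.castRingHom K) (e k)) ∈
      Ideal.span (Set.range f) := fun k => hx.mem_span (by
    rw [aeval_bind_int r φ (fun k => (hr k).symm), hy.zero, map_zero])
  have hp := aeval_repPoly r φ (fun k => (hr k).symm) G γ hγ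
  rw [hGg] at hp
  have h' : Spread Q l (Polynomial R ⧸ Ideal.span {g}) := h
  refine Spread.of_one hQ.toRingClosed hl hft hx ?_
  filter_upwards [h' _ _ _ _ (hx.poly.quot hp), exists_lifts hl r, mk_eventually hl hm, hft]
    with B h1 h2 h3 h4 f' hf'
  obtain ⟨r', hr'⟩ := h2
  refine gal_model hQ h4 f' r' hy hG γ hγ (fun k => ?_) (h1 _ ?_)
  · apply h3 f' hf' k
    rw [MvPolynomial.map_bind₁, MvPolynomial.map_map]
    have h5 : (fun k => MvPolynomial.map B.subtype (r' k)) = r := funext hr'
    rw [h5]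
    congr 1
  · rintro (_ | i)
    · exact map_repPoly hr' γ _
    · simp only [Option.elim_some]
      rw [map_rename_some, hf' i]

theorem Geometric.finiteType {P : Scheme.{0} → Prop} {K : Type} [Field K] {R : Type} [CommRing R]
    [Algebra K R] (h : Geometric P K R) : Algebra.FiniteType K R := by
  induction h with
  | zero R h =>
    have := h
    exact Algebra.FiniteType.of_surjective (Algebra.ofId K R) (fun r => ⟨0, Subsingleton.elim _ _⟩)
  | base => infer_instance
  | seed R h =>
    obtain ⟨k, _, _, R₀, _, _, -, h1, ⟨e⟩, -⟩ := h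
    have h2 : Algebra.FiniteType K (K ⊗[k] R₀) := Algebra.FiniteType.baseChange K
    exact Algebra.FiniteType.equiv h2 e
  | iso R S e _ ih => exact Algebra.FiniteType.equiv ih e
  | poly R _ ih =>
    have := ih
    infer_instance
  | glue R f h _ _ _ _ => exact h
  | closed R f _ _ ih _ =>
    have := ih
    infer_instance
  | opn R f _ _ ih _ =>
    have := ih
    have h6 : Algebra.FiniteType R (Localization.Away f) :=
        IsLocalization.finiteType_of_monoid_fg (Submonoid.powers f) _
    exact Algebra.FiniteType.trans ih h6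
  | summand R f _ _ ih =>
    have := ih
    infer_instance
  | galois R g h _ _ _ _ _ _ => exact h

/-- **Spreading out.** -/
theorem Geometric.spread {P : Scheme.{0} → Prop} {K : Type} [Field K]
    {Q : ∀ (R : Type) [CommRing R], Prop} {l : Filter (Subring K)} (hQ : MorinRings Q)
    (hl : ∀ x : K, ∀ᶠ B in l, x ∈ B) (hft : ∀ᶠ B in l, FT B) (hB : ∀ᶠ B : Subring K in l, Q B)
    (hS : ∀ (R : Type) [CommRing R] [Algebra K R], Seed P K R → Spread Q l R)
    {R : Type} [CommRing R] [Algebra K R] (h : Geometric P K R) : Spread Q l R := by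
  induction h with
  | zero R h =>
    intro σ ρ _ _ x f hx
    have h1 : (1 : MvPolynomial σ K) ∈ Ideal.span (Set.range f) :=
      hx.mem_span (Subsingleton.elim _ _)
    filter_upwards [mem_eventually hl h1] with B h2 g hg
    apply hQ.zero
    have h3 := h2 g hg 1 (map_one _)
    exact Ideal.Quotient.subsingleton_iff.2 ((Ideal.eq_top_iff_one _).2 h3)
  | base =>
    have hx : Rep (C := K) (R := K) (fun i : Empty => i.elim) (fun i : Empty => i.elim) := by
      refine ⟨fun i => i.elim, fun E _ _ y _ => ⟨Algebra.ofId K E, fun j => j.elim⟩, ?_⟩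
      intro E _ _ φ ψ _
      exact Subsingleton.elim _ _
    refine Spread.of_one hQ.toRingClosed hl hft hx ?_
    filter_upwards [hB, hft] with B h1 h2 g hg
    have hx' : Rep (C := B) (R := B) (fun i : Empty => i.elim) g := by
      refine ⟨fun i => i.elim, fun E _ _ y _ => ⟨Algebra.ofId B E, fun j => j.elim⟩, ?_⟩
      intro E _ _ φ ψ _
      exact Subsingleton.elim _ _
    obtain ⟨e, -⟩ := hx'.equiv (rep_std g)
    exact hQ.iso _ _ h2 e.toRingEquiv h1
  | seed R h => exact hS R h
  | iso R S e _ ih =>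
    intro σ ρ _ _ x f hx
    exact ih σ ρ _ f (hx.transport e.symm)
  | poly R h ih => exact Spread.poly hQ.toRingClosed hl hft h.finiteType ih
  | glue R f h _ _ ih1 ih2 =>
    obtain ⟨M, _, s, h0, -, h1, h2, h3⟩ := triple hQ.toRingClosed hl hft h f
    rw [h1]
    filter_upwards [h0, h2.1 ih1, h3.1 ih2] with B c0 c1 c2
    exact hQ.glue _ (s B) c0 c1 c2
  | closed R f h _ ih1 ih2 =>
    obtain ⟨M, _, s, h0, -, h1, h2, h3⟩ := triple hQ.toRingClosed hl hft h.finiteType f
    rw [h2]
    filter_upwards [h0, h1.1 ih1, h3.1 ih2] with B c0 c1 c2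
    exact hQ.closed _ (s B) c0 c1 c2
  | opn R f h _ ih1 ih2 =>
    obtain ⟨M, _, s, h0, -, h1, h2, h3⟩ := triple hQ.toRingClosed hl hft h.finiteType f
    rw [h3]
    filter_upwards [h0, h1.1 ih1, h2.1 ih2] with B c0 c1 c2
    exact hQ.opn _ (s B) c0 c1 c2
  | summand R f hf h ih =>
    obtain ⟨M, _, s, h0, hi, h1, h2, h3⟩ := triple hQ.toRingClosed hl hft h.finiteType f
    rw [h2]
    filter_upwards [h0, hi hf, h1.1 ih] with B c0 c1 c2
    exact hQ.summand _ (s B) c0 c1 c2
  | galois R g h h1 h2 h3 h4 _ ih => exact Spread.gal hQ hl hft h ⟨h1, h2, h3, h4⟩ ih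

end Pool.Agent.Helper45.LG
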