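import Pool.Agent.Helper45.LG.Fin

/-!
# The algebraic closure of the rational numbers
-/

set_option autoImplicit false

namespace Pool.Agent.Helper45.LG

open NumberField

variable {Q : ∀ (R : Type) [CommRing R], Prop}

/-- number rings with some inverted integer -/
theorem MorinRings.numberRing_away (hQ : MorinRings Q) (F : Type) [Field F] [NumberField F]
    (N : ℕ) (hN : 0 < N) : Q (Localization.Away (N : 𝓞 F)) := by
  have hft : Algebra.FiniteType ℤ (𝓞 F) := inferInstance
  refine hQ.opn (𝓞 F) (N : 𝓞 F) hft (hQ.numberRing F) (hQ.finite _ _ ?_ rfl)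
  apply Ideal.finiteQuotientOfFreeOfNeBot
  rw [Ne, Ideal.span_singleton_eq_bot]
  exact_mod_cast hN.ne'

section

variable {k K : Type} [Field k] [IsFractionRing ℤ k] [Field K] [CharZero K] [Algebra k K]

omit [CharZero K] in
theorem clear_den {θ : K} {y : K} (hy : y ∈ Algebra.adjoin k {θ}) :
    ∃ M : ℕ, 0 < M ∧ (M : K) * y ∈ Algebra.adjoin ℤ {θ} := by
  rw [Algebra.adjoin_singleton_eq_range_aeval] at hy
  obtain ⟨p, hp⟩ := hy
  obtain ⟨b, hb, hb2⟩ := IsLocalization.integerNormalization_spec (nonZeroDivisors ℤ) p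
  have hb0 : b ≠ 0 := nonZeroDivisors.ne_zero hb
  have h1 : (b : K) * y ∈ Algebra.adjoin ℤ {θ} := by
    have h2 := aeval_mem_adjoin (C := ℤ) θ
      (IsLocalization.integerNormalization (nonZeroDivisors ℤ) p)
    have h3 : Polynomial.aeval θ (IsLocalization.integerNormalization (nonZeroDivisors ℤ) p) =
        Polynomial.aeval θ
          ((IsLocalization.integerNormalization (nonZeroDivisors ℤ) p).map (algebraMap ℤ k)) := by
      rw [Polynomial.aeval_map_algebraMap]
    rw [h3, hb2, map_zsmul] at h2
    have h4 : Polynomial.aeval θ p = y := hp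
    rw [h4, zsmul_eq_mul] at h2
    exact h2
  refine ⟨b.natAbs, Int.natAbs_pos.2 hb0, ?_⟩
  rcases Int.natAbs_eq b with h | h
  · have h2 : (b : K) = ((b.natAbs : ℕ) : K) := by
      conv_lhs => rw [h]
      simp
    rwa [← h2]
  · have h2 : ((b.natAbs : ℕ) : K) = - (b : K) := by
      conv_rhs => rw [h]
      simp
    rw [h2, neg_mul]
    exact neg_mem h1

omit [CharZero K] in
theorem clear_dens {θ : K} (Y : Finset K) (hY : ∀ y ∈ Y, y ∈ Algebra.adjoin k {θ}) :
    ∃ M : ℕ, 0 < M ∧ ∀ y ∈ Y, (M : K) * y ∈ Algebra.adjoin ℤ {θ} := by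
  classical
  induction Y using Finset.induction_on with
  | empty => exact ⟨1, one_pos, by simp⟩
  | insert y Y _ ih =>
    obtain ⟨M, hM, h⟩ := ih fun z hz => hY z (Finset.mem_insert_of_mem hz)
    obtain ⟨M', hM', h'⟩ := clear_den (hY y (Finset.mem_insert_self _ _))
    refine ⟨M * M', Nat.mul_pos hM hM', fun z hz => ?_⟩
    have hnat : ∀ k : ℕ, (k : K) ∈ Algebra.adjoin ℤ {θ} := fun k => natCast_mem _ k
    rcases Finset.mem_insert.1 hz with rfl | hz
    · have : ((M * M' : ℕ) : K) * z = (M : K) * ((M' : K) * z) := by push_cast; ring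
      rw [this]
      exact mul_mem (hnat M) h'
    · have : ((M * M' : ℕ) : K) * z = (M' : K) * ((M : K) * z) := by push_cast; ring
      rw [this]
      exact mul_mem (hnat M') (h z hz)

end

section

variable {K : Type} [Field K] [CharZero K]

/-- the localisation of `ℤ` acts on `K` -/
noncomputable def zAway (K : Type) [Field K] [CharZero K] (N : ℕ) (hN : 0 < N) :
    Localization.Away (N : ℤ) →+* K :=
  IsLocalization.Away.lift (N : ℤ) (g := algebraMap ℤ K) (by
    apply IsUnit.mk0
    simp only [algebraMap_int_eq, Int.coe_castRingHom]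
    exact_mod_cast hN.ne')

theorem zAway_int (N : ℕ) (hN : 0 < N) (z : ℤ) :
    zAway K N hN (algebraMap ℤ (Localization.Away (N : ℤ)) z) = z := by
  rw [zAway, IsLocalization.Away.lift_eq]
  simp

theorem zAway_mul (N : ℕ) (hN : 0 < N) (c : Localization.Away (N : ℤ)) :
    ∃ (k : ℕ) (z : ℤ), (N : K) ^ k * zAway K N hN c = z ∧
      algebraMap ℤ (Localization.Away (N : ℤ)) ((N : ℤ) ^ k) * c = algebraMap ℤ _ z := by
  obtain ⟨⟨z, ⟨_, k, rfl⟩⟩, h⟩ := IsLocalization.surj (Submonoid.powers (N : ℤ)) c
  simp only at h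
  refine ⟨k, z, ?_, ?_⟩
  · have h1 := congrArg (zAway K N hN) h
    rw [map_mul, zAway_int, zAway_int] at h1
    rw [mul_comm, ← h1]
    push_cast
    rfl
  · rw [mul_comm]
    exact h

theorem zAway_injective (N : ℕ) (hN : 0 < N) : Function.Injective (zAway K N hN) := by
  rw [injective_iff_map_eq_zero]
  intro c hc
  obtain ⟨k, z, h1, h2⟩ := zAway_mul (K := K) N hN c
  rw [hc, mul_zero] at h1
  have h3 : z = 0 := by exact_mod_cast h1.symm
  rw [h3, map_zero] at h2
  have h4 : IsUnit (algebraMap ℤ (Localization.Away (N : ℤ)) ((N : ℤ) ^ k)) := by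
    rw [map_pow]
    exact (IsLocalization.Away.algebraMap_isUnit (N : ℤ)).pow k
  exact (h4.mul_right_eq_zero).1 h2

end

/-- a normal number field and an integral primitive element -/
structure Setup (k K : Type) [Field k] [Field K] [Algebra k K] (T : Finset K)
    (L : IntermediateField k K) (θ : K) : Prop where
  fin : FiniteDimensional k L
  normal : Normal k L
  sub : ∀ x ∈ T, x ∈ L
  mem : θ ∈ L
  int : IsIntegral ℤ θ
  prim : ∀ y ∈ L, y ∈ Algebra.adjoin k {θ}

section

variable {k K : Type} [Field k] [CharZero k] [IsFractionRing ℤ k] [Field K] [CharZero K]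
  [Algebra k K] [Algebra.IsAlgebraic k K] [IsAlgClosed K]

theorem exists_setup (T : Finset K) : ∃ L θ, Setup k K T L θ := by
  classical
  let L₀ : IntermediateField k K := IntermediateField.adjoin k (T : Set K)
  have hL₀ : FiniteDimensional k L₀ :=
    IntermediateField.finiteDimensional_adjoin fun x _ => Algebra.IsIntegral.isIntegral x
  obtain ⟨L, hLfin, hLn, hTL⟩ : ∃ L : IntermediateField k K, FiniteDimensional k L ∧
      Normal k L ∧ ∀ x ∈ T, x ∈ L := by
    have h1 : IsAlgClosure k K := ⟨inferInstance, inferInstance⟩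
    have h2 : Normal k K := IsAlgClosure.normal k K
    refine ⟨IntermediateField.normalClosure k L₀ K, inferInstance, inferInstance, fun x hx => ?_⟩
    exact IntermediateField.le_normalClosure L₀ (IntermediateField.subset_adjoin _ _ hx)
  obtain ⟨α, hα⟩ := Field.exists_primitive_element k L
  obtain ⟨m, hm, hint⟩ : ∃ m : ℤ, m ≠ 0 ∧ IsIntegral ℤ (m • (α : K)) := by
    have h0 : IsAlgebraic k (α : K) := Algebra.IsAlgebraic.isAlgebraic _
    have h1 : IsAlgebraic ℤ (α : K) := (IsFractionRing.isAlgebraic_iff ℤ k K).2 h0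
    exact h1.exists_integral_multiple
  have hθL : m • (α : K) ∈ L := zsmul_mem α.2 m
  refine ⟨L, m • (α : K), hLfin, hLn, hTL, hθL, hint, ?_⟩
  have hθk : IsIntegral k (m • (α : K)) := Algebra.IsIntegral.isIntegral _
  have hadj : L ≤ IntermediateField.adjoin k {m • (α : K)} := by
    have h2 := congrArg (IntermediateField.map L.val) hα
    rw [IntermediateField.adjoin_map] at h2
    simp only [IntermediateField.coe_val, Set.image_singleton] at h2
    have h3 : L ≤ IntermediateField.adjoin k {(α : K)} := by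
      rw [h2]
      intro x hx
      exact ⟨⟨x, hx⟩, trivial, rfl⟩
    refine h3.trans ?_
    rw [IntermediateField.adjoin_simple_le_iff]
    have h4 : (α : K) = (m : K)⁻¹ * (m • (α : K)) := by
      have : (m : K) ≠ 0 := by exact_mod_cast hm
      simp only [zsmul_eq_mul]
      field_simp
    have h5 : (m : K)⁻¹ * (m • (α : K)) ∈ IntermediateField.adjoin k {m • (α : K)} := by
      apply mul_mem
      · apply inv_mem
        exact intCast_mem (IntermediateField.adjoin k {m • (α : K)}) m
      · exact IntermediateField.mem_adjoin_simple_self k (m • (α : K))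
    rwa [← h4] at h5
  intro y hy
  rw [← IntermediateField.adjoin_simple_toSubalgebra_of_isAlgebraic hθk.isAlgebraic]
  exact hadj hy

omit [IsAlgClosed K] in
/-- the finite set of elements with bounded denominators -/
theorem exists_denominator {T : Finset K} {L : IntermediateField k K} {θ : K}
    (h : Setup k K T L θ) {F : Type} [Field F] [NumberField F] (i : F →+* K)
    (hi : ∀ x : F, i x ∈ L) :
    Polynomial.aeval θ (Polynomial.derivative (minpoly ℤ θ)) ≠ 0 ∧
    ∃ N : ℕ, 0 < N ∧
      (∀ x ∈ T, (N : K) * x ∈ Algebra.adjoin ℤ {θ}) ∧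
      (∀ a : K, Polynomial.aeval a (minpoly ℤ θ) = 0 → (N : K) * a ∈ Algebra.adjoin ℤ {θ}) ∧
      (N : K) * (Polynomial.aeval θ (Polynomial.derivative (minpoly ℤ θ)))⁻¹ ∈
        Algebra.adjoin ℤ {θ} ∧
      ∀ b : 𝓞 F, (N : K) * i b ∈ Algebra.adjoin ℤ {θ} := by
  classical
  have hθk : IsIntegral k θ := Algebra.IsIntegral.isIntegral θ
  have hmin : minpoly k θ = (minpoly ℤ θ).map (algebraMap ℤ k) :=
    minpoly.isIntegrallyClosed_eq_field_fractions' k h.int
  have hsep : (minpoly k θ).Separable := (minpoly.irreducible hθk).separable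
  set d : K := Polynomial.aeval θ (Polynomial.derivative (minpoly ℤ θ)) with hdd
  have hd : d ≠ 0 := by
    have h1 := hsep.aeval_derivative_ne_zero (minpoly.aeval k θ)
    rw [hmin, Polynomial.derivative_map, Polynomial.aeval_map_algebraMap] at h1
    exact h1
  have hdL : d⁻¹ ∈ L := by
    apply L.inv_mem
    have h1 : d ∈ Algebra.adjoin ℤ {θ} := aeval_mem_adjoin _ _
    have h2 : Algebra.adjoin ℤ {θ} ≤ (L.toSubalgebra).restrictScalars ℤ := by
      rw [Algebra.adjoin_le_iff, Set.singleton_subset_iff]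
      exact h.mem
    exact h2 h1
  have hroot : ∀ a : K, Polynomial.aeval a (minpoly ℤ θ) = 0 →
      Polynomial.aeval a (minpoly k θ) = 0 := by
    intro a ha
    rw [hmin, Polynomial.aeval_map_algebraMap]
    exact ha
  have hroot2 : ∀ a : K, Polynomial.aeval a (minpoly k θ) = 0 →
      a ∈ ((minpoly k θ).aroots K).toFinset := by
    intro a ha
    rw [Multiset.mem_toFinset, Polynomial.mem_aroots]
    exact ⟨minpoly.ne_zero hθk, ha⟩
  obtain ⟨G, hG⟩ : ∃ G : Finset (𝓞 F), Submodule.span ℤ (G : Set (𝓞 F)) = ⊤ :=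
    (Module.Finite.fg_top (R := ℤ) (M := 𝓞 F))
  let Y : Finset K := ((T ∪ ((minpoly k θ).aroots K).toFinset) ∪ {d⁻¹}) ∪
    G.image (fun b : 𝓞 F => i b)
  have hY : ∀ y ∈ Y, y ∈ Algebra.adjoin k {θ} := by
    intro y hy
    apply h.prim
    simp only [Y, Finset.mem_union, Finset.mem_singleton, Finset.mem_image] at hy
    rcases hy with ((hy | hy) | hy) | ⟨b, -, rfl⟩
    · exact h.sub y hy
    · rw [Multiset.mem_toFinset, Polynomial.mem_aroots] at hy
      exact mem_of_root h.normal hθk h.mem hy.2
    · rw [hy]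
      exact hdL
    · exact hi _
  obtain ⟨N, hN, hNY⟩ := clear_dens Y hY
  refine ⟨hd, N, hN, ?_, ?_, ?_, ?_⟩
  · intro x hx
    apply hNY
    simp only [Y, Finset.mem_union]
    exact Or.inl (Or.inl (Or.inl hx))
  · intro a ha
    apply hNY
    simp only [Y, Finset.mem_union]
    exact Or.inl (Or.inl (Or.inr (hroot2 a (hroot a ha))))
  · apply hNY
    exact Finset.mem_union_left _ (Finset.mem_union_right _ (Finset.mem_singleton_self _))
  · intro b
    have hb : b ∈ Submodule.span ℤ (G : Set (𝓞 F)) := by rw [hG]; trivial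
    induction hb using Submodule.span_induction with
    | mem x hx =>
      apply hNY
      simp only [Y, Finset.mem_union, Finset.mem_image]
      exact Or.inr ⟨x, hx, rfl⟩
    | zero => simp
    | add x y _ _ hx hy =>
      have : (N : K) * i ((x + y : 𝓞 F) : F) = (N : K) * i x + (N : K) * i y := by
        push_cast
        rw [map_add]
        ring
      rw [this]
      exact add_mem hx hy
    | smul a x _ hx =>
      have : (N : K) * i ((a • x : 𝓞 F) : F) = a • ((N : K) * i x) := by
        have h5 : ((a • x : 𝓞 F) : F) = (a : F) * (x : F) := by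
          rw [zsmul_eq_mul]
          push_cast
          simp
        rw [h5, map_mul, map_intCast, zsmul_eq_mul]
        ring
      rw [this]
      exact zsmul_mem hx a

end

end Pool.Agent.Helper45.LG
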