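import Pool.Agent.Helper45.LG.NF

/-!
# Good subrings of an algebraic closure of the rational numbers
-/

set_option autoImplicit false

namespace Pool.Agent.Helper45.LG

open NumberField

variable {Q : ∀ (R : Type) [CommRing R], Prop}

/-- `C` acts on the field `K` like the ring of the fractions `z / N ^ k` -/
structure ZAct (N : ℕ) (C K : Type) [CommRing C] [Field K] [Algebra C K] : Prop where
  pos : 0 < N
  inv : ∃ u : C, algebraMap C K u * (N : K) = 1
  mul : ∀ c : C, ∃ (k : ℕ) (z : ℤ), (N : K) ^ k * algebraMap C K c = z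

section

variable {N : ℕ} {C K : Type} [CommRing C] [Field K] [Algebra C K] (h : ZAct N C K) {θ : K}

omit h in
theorem int_le {x : K} (hx : x ∈ Algebra.adjoin ℤ {θ}) : x ∈ Algebra.adjoin C {θ} := by
  have h2 : Algebra.adjoin ℤ {θ} ≤ (Algebra.adjoin C {θ}).restrictScalars ℤ := by
    rw [Algebra.adjoin_le_iff, Set.singleton_subset_iff]
    exact Algebra.self_mem_adjoin_singleton C θ
  exact h2 hx

include h

theorem ZAct.mem_of_mul {x : K} (hx : (N : K) * x ∈ Algebra.adjoin ℤ {θ}) :
    x ∈ Algebra.adjoin C {θ} := by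
  obtain ⟨u, hu⟩ := h.inv
  have : x = algebraMap C K u * ((N : K) * x) := by rw [← mul_assoc, hu, one_mul]
  rw [this]
  exact mul_mem (Subalgebra.algebraMap_mem _ u) (int_le hx)

theorem ZAct.pow_mul_mem {y : K} (hy : y ∈ Algebra.adjoin C {θ}) :
    ∃ k : ℕ, (N : K) ^ k * y ∈ Algebra.adjoin ℤ {θ} := by
  induction hy using Algebra.adjoin_induction with
  | mem x hx =>
    rw [Set.mem_singleton_iff] at hx
    exact ⟨0, by rw [pow_zero, one_mul, hx]; exact Algebra.self_mem_adjoin_singleton ℤ θ⟩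
  | algebraMap r =>
    obtain ⟨k, z, hz⟩ := h.mul r
    exact ⟨k, by rw [hz]; exact intCast_mem _ z⟩
  | add x y _ _ hx hy =>
    obtain ⟨a, ha⟩ := hx
    obtain ⟨b, hb⟩ := hy
    refine ⟨a + b, ?_⟩
    have : (N : K) ^ (a + b) * (x + y) =
      (N : K) ^ b * ((N : K) ^ a * x) + (N : K) ^ a * ((N : K) ^ b * y) := by ring
    rw [this]
    exact add_mem (mul_mem (pow_mem (natCast_mem _ N) b) ha)
      (mul_mem (pow_mem (natCast_mem _ N) a) hb)
  | mul x y _ _ hx hy =>
    obtain ⟨a, ha⟩ := hx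
    obtain ⟨b, hb⟩ := hy
    refine ⟨a + b, ?_⟩
    have : (N : K) ^ (a + b) * (x * y) = ((N : K) ^ a * x) * ((N : K) ^ b * y) := by ring
    rw [this]
    exact mul_mem ha hb

theorem ZAct.equiv [CharZero K] {F : Type} [Field F] [NumberField F] (i : F →+* K)
    (hb : ∀ b : 𝓞 F, (N : K) * i b ∈ Algebra.adjoin ℤ {θ})
    (hθ : ∃ t : 𝓞 F, i t = θ) :
    Nonempty (Localization.Away (N : 𝓞 F) ≃+* Algebra.adjoin C {θ}) := by
  let j : 𝓞 F →+* Algebra.adjoin C {θ} :=
    (i.comp (algebraMap (𝓞 F) F)).codRestrict (Algebra.adjoin C {θ})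
      (fun b => h.mem_of_mul (hb b))
  have hj : ∀ b, ((j b : Algebra.adjoin C {θ}) : K) = i b := fun b => rfl
  let _ : Algebra (𝓞 F) (Algebra.adjoin C {θ}) := j.toAlgebra
  have hal : ∀ b, algebraMap (𝓞 F) (Algebra.adjoin C {θ}) b = j b := fun b => rfl
  have hinj : Function.Injective j := by
    intro a b hab
    have h1 : i (a : F) = i (b : F) := by rw [← hj, ← hj, hab]
    exact RingOfIntegers.ext (i.injective h1)
  have hZ : ∀ x ∈ Algebra.adjoin ℤ {θ}, ∃ b : 𝓞 F, i b = x := by
    intro x hx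
    induction hx using Algebra.adjoin_induction with
    | mem x hx =>
      rw [Set.mem_singleton_iff] at hx
      rw [hx]
      exact hθ
    | algebraMap r => exact ⟨(r : 𝓞 F), by simp⟩
    | add x y _ _ hx hy =>
      obtain ⟨a, rfl⟩ := hx
      obtain ⟨b, rfl⟩ := hy
      exact ⟨a + b, by push_cast; rw [map_add]⟩
    | mul x y _ _ hx hy =>
      obtain ⟨a, rfl⟩ := hx
      obtain ⟨b, rfl⟩ := hy
      exact ⟨a * b, by push_cast; rw [map_mul]⟩
  have hjN : ∀ k : ℕ, ((j ((N : 𝓞 F) ^ k) : Algebra.adjoin C {θ}) : K) = (N : K) ^ k := by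
    intro k
    rw [hj]
    push_cast
    rw [map_pow, map_natCast]
  have hloc : IsLocalization.Away (N : 𝓞 F) (Algebra.adjoin C {θ}) := by
    refine ⟨?_, ?_, ?_⟩
    · rintro ⟨_, k, rfl⟩
      rw [hal]
      obtain ⟨u, hu⟩ := h.inv
      refine IsUnit.of_mul_eq_one ((algebraMap C (Algebra.adjoin C {θ}) u) ^ k) ?_
      apply Subtype.ext
      change ((j ((N : 𝓞 F) ^ k) : Algebra.adjoin C {θ}) : K) * (algebraMap C K u) ^ k = 1
      rw [hjN, ← mul_pow, mul_comm, hu, one_pow]
    · intro z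
      obtain ⟨k, hk⟩ := h.pow_mul_mem z.2
      obtain ⟨b, hb⟩ := hZ _ hk
      refine ⟨(b, ⟨(N : 𝓞 F) ^ k, k, rfl⟩), ?_⟩
      apply Subtype.ext
      change (z : K) * ((j ((N : 𝓞 F) ^ k) : Algebra.adjoin C {θ}) : K) =
        ((j b : Algebra.adjoin C {θ}) : K)
      rw [hjN, hj, hb, mul_comm]
    · intro x y hxy
      exact ⟨1, by rw [hinj hxy]⟩
  exact ⟨(IsLocalization.algEquiv (Submonoid.powers (N : 𝓞 F)) (Localization.Away (N : 𝓞 F))
    (Algebra.adjoin C {θ})).toRingEquiv⟩

end

/-- the part which uses only the integral closedness -/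
theorem goodSub_of_int {C K : Type} [CommRing C] [IsDomain C] [IsIntegrallyClosed C] [Field K]
    [IsAlgClosed K] [CharZero K] [Algebra C K] [FaithfulSMul C K]
    {Cp : ∀ (C : Type) [CommRing C], Prop} (hC : Cp C) (hft : Algebra.FiniteType ℤ C) {θ : K}
    {N : ℕ} (h : ZAct N C K) (hθ : IsIntegral ℤ θ)
    (hd : Polynomial.aeval θ (Polynomial.derivative (minpoly ℤ θ)) ≠ 0)
    (hroots : ∀ a : K, Polynomial.aeval a (minpoly ℤ θ) = 0 →
      (N : K) * a ∈ Algebra.adjoin ℤ {θ})
    (hd' : (N : K) * (Polynomial.aeval θ (Polynomial.derivative (minpoly ℤ θ)))⁻¹ ∈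
        Algebra.adjoin ℤ {θ})
    (hQ : Q (Algebra.adjoin C {θ})) :
    GoodSub Q Cp (Algebra.adjoin C {θ}).toSubring := by
  have hθC : IsIntegral C θ := hθ.tower_top
  have hdvd : minpoly C θ ∣ (minpoly ℤ θ).map (algebraMap ℤ C) := by
    apply minpoly.isIntegrallyClosed_dvd hθC
    rw [Polynomial.aeval_map_algebraMap]
    exact minpoly.aeval _ _
  obtain ⟨q, hq⟩ := hdvd
  have hder : Polynomial.aeval θ (Polynomial.derivative (minpoly ℤ θ)) =
      Polynomial.aeval θ (Polynomial.derivative (minpoly C θ)) * Polynomial.aeval θ q := by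
    have h1 := congrArg (fun p => Polynomial.aeval θ (Polynomial.derivative p)) hq
    simp only [Polynomial.derivative_map, Polynomial.aeval_map_algebraMap,
      Polynomial.derivative_mul, map_add, map_mul, minpoly.aeval, zero_mul, add_zero] at h1
    exact h1
  have hne : Polynomial.aeval θ (Polynomial.derivative (minpoly C θ)) ≠ 0 := by
    intro h0
    rw [h0, zero_mul] at hder
    exact hd hder
  have hne' : Polynomial.aeval θ q ≠ 0 := by
    intro h0
    rw [h0, mul_zero] at hder
    exact hd hder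
  refine goodSub_of_minpoly hC hft hθC ?_ hne ?_ hQ
  · intro a ha
    apply h.mem_of_mul
    apply hroots
    rw [← Polynomial.aeval_map_algebraMap C, hq, map_mul, ha, zero_mul]
  · have h1 : (Polynomial.aeval θ (Polynomial.derivative (minpoly C θ)))⁻¹ =
        (Polynomial.aeval θ (Polynomial.derivative (minpoly ℤ θ)))⁻¹ * Polynomial.aeval θ q := by
      rw [hder]
      field_simp
    rw [h1]
    exact mul_mem (h.mem_of_mul hd') (aeval_mem_adjoin _ _)

/-- the localisations `ℤ[1/N]` -/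
def IsZAway (C : Type) [CommRing C] : Prop :=
  ∃ N : ℕ, 0 < N ∧ Nonempty (C ≃+* Localization.Away (N : ℤ))

theorem powers_le {N : ℕ} (hN : 0 < N) : Submonoid.powers (N : ℤ) ≤ nonZeroDivisors ℤ := by
  rw [Submonoid.powers_le, mem_nonZeroDivisors_iff_ne_zero]
  exact_mod_cast hN.ne'

theorem goodSub_number {K : Type} [Field K] [IsAlgClosed K] [CharZero K] {θ : K} {N : ℕ}
    (hN : 0 < N) (hθ : IsIntegral ℤ θ)
    (hd : Polynomial.aeval θ (Polynomial.derivative (minpoly ℤ θ)) ≠ 0)
    (hroots : ∀ a : K, Polynomial.aeval a (minpoly ℤ θ) = 0 →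
      (N : K) * a ∈ Algebra.adjoin ℤ {θ})
    (hd' : (N : K) * (Polynomial.aeval θ (Polynomial.derivative (minpoly ℤ θ)))⁻¹ ∈
        Algebra.adjoin ℤ {θ})
    (hQ : ∀ (C : Type) [CommRing C] [Algebra C K], ZAct N C K → Q (Algebra.adjoin C {θ})) :
    ∃ B : Subring K, GoodSub Q IsZAway B ∧
      ∀ x : K, (N : K) * x ∈ Algebra.adjoin ℤ {θ} → x ∈ B := by
  let _ : Algebra (Localization.Away (N : ℤ)) K := (zAway K N hN).toAlgebra
  have hdom : IsDomain (Localization.Away (N : ℤ)) :=
    IsLocalization.isDomain_localization (powers_le hN)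
  have hic : IsIntegrallyClosed (Localization.Away (N : ℤ)) :=
    isIntegrallyClosed_of_isLocalization _ _ (powers_le hN)
  have hfaith : FaithfulSMul (Localization.Away (N : ℤ)) K :=
    (faithfulSMul_iff_algebraMap_injective _ _).2 (zAway_injective N hN)
  have hact : ZAct N (Localization.Away (N : ℤ)) K := by
    refine ⟨hN, ⟨IsLocalization.Away.invSelf (N : ℤ), ?_⟩, fun c => ?_⟩
    · have h1 := congrArg (zAway K N hN) (IsLocalization.Away.mul_invSelf
        (S := Localization.Away (N : ℤ)) (N : ℤ))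
      rw [map_mul, zAway_int, map_one] at h1
      rw [mul_comm]
      exact_mod_cast h1
    · obtain ⟨k, z, h1, -⟩ := zAway_mul (K := K) N hN c
      exact ⟨k, z, h1⟩
  exact ⟨_, goodSub_of_int ⟨N, hN, ⟨RingEquiv.refl _⟩⟩
    (finiteType_away (R := ℤ) inferInstance _) hact hθ hd hroots hd' (hQ _ hact),
    fun x hx => hact.mem_of_mul hx⟩

section

variable {K : Type} [Field K] [CharZero K] [IsAlgClosed K]

theorem numberField_of_finite {k : Type} [Field k] [CharZero k] [IsFractionRing ℤ k] {L : Type}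
    [Field L] [Algebra k L] [FiniteDimensional k L] :
    NumberField L := by
  have h0 : CharZero L := charZero_of_injective_algebraMap (algebraMap k L).injective
  let e : ℚ ≃ₐ[ℤ] k := IsLocalization.algEquiv (nonZeroDivisors ℤ) ℚ k
  have h1 : Function.Surjective (algebraMap ℚ k) := by
    have : (algebraMap ℚ k) = (e : ℚ →+* k) := Subsingleton.elim _ _
    rw [this]
    exact e.surjective
  have h2 : Module.Finite ℚ k := Module.Finite.of_surjective
    (Algebra.linearMap ℚ k) h1
  have h3 : IsScalarTower ℚ k L := IsScalarTower.of_algebraMap_eq' (Subsingleton.elim _ _)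
  exact { to_charZero := h0, to_finiteDimensional := Module.Finite.trans (R := ℚ) k L }

/-- every finite subset of an algebraic closure of the rational numbers lies in a good subring -/
theorem exists_good_number (k : Type) [Field k] [CharZero k] [IsFractionRing ℤ k] [Algebra k K]
    [Algebra.IsAlgebraic k K] (hQ : MorinRings Q) (T : Finset K) :
    ∃ B : Subring K, GoodSub Q IsZAway B ∧ ∀ x ∈ T, x ∈ B := by
  obtain ⟨L, θ, hs⟩ := exists_setup (k := k) T
  have hfin := hs.fin
  have hnf : NumberField L := numberField_of_finite (k := k)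
  obtain ⟨hd, N, hN, h1, h2, h3, h4⟩ := exists_denominator hs (algebraMap L K) (fun x => x.2)
  obtain ⟨B, hB, hB'⟩ := goodSub_number (Q := Q) hN hs.int hd h2 h3 (by
    intro C _ _ hact
    have hθ : ∃ t : 𝓞 L, algebraMap L K t = θ := by
      have hint : IsIntegral ℤ (⟨θ, hs.mem⟩ : L) := by
        have := hs.int
        exact (isIntegral_algebraMap_iff (R := ℤ) (A := L) (B := K)
          (algebraMap L K).injective).1 this
      exact ⟨⟨⟨θ, hs.mem⟩, hint⟩, rfl⟩
    obtain ⟨e⟩ := hact.equiv (algebraMap L K) h4 hθ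
    have hft : Algebra.FiniteType ℤ (𝓞 L) := inferInstance
    exact hQ.iso _ _ (finiteType_away hft _) e (hQ.numberRing_away L N hN))
  exact ⟨B, hB, fun x hx => hB' x (h1 x hx)⟩

end

end Pool.Agent.Helper45.LG
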