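import Mathlib

/-!
# Algebras given by generators and relations (through the universal property)
-/

set_option autoImplicit false

namespace Pool.Agent.Helper45.LG

open MvPolynomial

/-- `R` is the `C`-algebra with the generators `x` and the relations `f`. -/
structure Rep {C R : Type} [CommRing C] [CommRing R] [Algebra C R] {σ ρ : Type} (x : σ → R)
    (f : ρ → MvPolynomial σ C) : Prop where
  zero : ∀ i, aeval x (f i) = 0
  lift : ∀ (E : Type) [CommRing E] [Algebra C E] (y : σ → E), (∀ i, aeval y (f i) = 0) →
    ∃ φ : R →ₐ[C] E, ∀ j, φ (x j) = y j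
  ext : ∀ (E : Type) [CommRing E] [Algebra C E] (φ ψ : R →ₐ[C] E), (∀ j, φ (x j) = ψ (x j)) →
    φ = ψ

section

variable {C : Type} [CommRing C] {σ ρ τ π : Type}

/-- the standard algebra -/
abbrev Std (f : ρ → MvPolynomial σ C) : Type := MvPolynomial σ C ⧸ Ideal.span (Set.range f)

theorem rep_std (f : ρ → MvPolynomial σ C) :
    Rep (C := C) (R := Std f) (fun j => Ideal.Quotient.mk _ (X j)) f where
  zero i := by
    have h : aeval (fun j => Ideal.Quotient.mk (Ideal.span (Set.range f)) (X j)) (f i) =
        Ideal.Quotient.mk (Ideal.span (Set.range f)) (f i) := by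
      have : (aeval (fun j => Ideal.Quotient.mk (Ideal.span (Set.range f)) (X j)) :
          MvPolynomial σ C →ₐ[C] Std f) = Ideal.Quotient.mkₐ C _ := by
        apply MvPolynomial.algHom_ext
        intro j
        simp
      rw [this]
      rfl
    rw [h, Ideal.Quotient.eq_zero_iff_mem]
    exact Ideal.subset_span ⟨i, rfl⟩
  lift E _ _ y hy := by
    refine ⟨Ideal.Quotient.liftₐ _ (aeval y) ?_, fun j => ?_⟩
    · intro a ha
      have : Ideal.span (Set.range f) ≤ RingHom.ker (aeval y : MvPolynomial σ C →ₐ[C] E) := by
        rw [Ideal.span_le]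
        rintro _ ⟨i, rfl⟩
        exact hy i
      exact this ha
    · exact aeval_X _ _
  ext E _ _ φ ψ h := by
    apply Ideal.Quotient.algHom_ext
    apply MvPolynomial.algHom_ext
    intro j
    exact h j

variable {R : Type} [CommRing R] [Algebra C R] {x : σ → R} {f : ρ → MvPolynomial σ C}

theorem Rep.equiv {S : Type} [CommRing S] [Algebra C S] {y : σ → S} (hx : Rep x f) (hy : Rep y f) :
    ∃ e : R ≃ₐ[C] S, ∀ j, e (x j) = y j := by
  obtain ⟨φ, hφ⟩ := hx.lift S y hy.zero
  obtain ⟨ψ, hψ⟩ := hy.lift R x hx.zero
  refine ⟨AlgEquiv.ofAlgHom φ ψ ?_ ?_, hφ⟩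
  · apply hy.ext
    intro j
    simp [hφ, hψ]
  · apply hx.ext
    intro j
    simp [hφ, hψ]

theorem Rep.surj (hx : Rep x f) : Function.Surjective (aeval x : MvPolynomial σ C →ₐ[C] R) := by
  obtain ⟨e, he⟩ := (rep_std f).equiv hx
  intro r
  obtain ⟨p, hp⟩ := Ideal.Quotient.mk_surjective (e.symm r)
  refine ⟨p, ?_⟩
  have : (aeval x : MvPolynomial σ C →ₐ[C] R) =
      e.toAlgHom.comp (Ideal.Quotient.mkₐ C (Ideal.span (Set.range f))) := by
    apply MvPolynomial.algHom_ext
    intro j
    simp [← he j]
  rw [this]
  change e (Ideal.Quotient.mk _ p) = r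
  rw [hp, e.apply_symm_apply]

theorem Rep.mem_span (hx : Rep x f) {p : MvPolynomial σ C} (hp : aeval x p = 0) :
    p ∈ Ideal.span (Set.range f) := by
  obtain ⟨e, he⟩ := (rep_std f).equiv hx
  have : (aeval x : MvPolynomial σ C →ₐ[C] R) =
      e.toAlgHom.comp (Ideal.Quotient.mkₐ C (Ideal.span (Set.range f))) := by
    apply MvPolynomial.algHom_ext
    intro j
    simp [← he j]
  rw [this] at hp
  have h2 : e (Ideal.Quotient.mk _ p) = 0 := hp
  rw [map_eq_zero_iff e e.injective] at h2
  exact Ideal.Quotient.eq_zero_iff_mem.1 h2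

theorem Rep.of_mem {p : MvPolynomial σ C} (hp : p ∈ Ideal.span (Set.range f)) {E : Type}
    [CommRing E] [Algebra C E] {y : σ → E} (hy : ∀ i, aeval y (f i) = 0) : aeval y p = 0 := by
  have : Ideal.span (Set.range f) ≤ RingHom.ker (aeval y : MvPolynomial σ C →ₐ[C] E) := by
    rw [Ideal.span_le]
    rintro _ ⟨i, rfl⟩
    exact hy i
  exact this hp

/-- transport of a presentation -/
theorem Rep.transport {S : Type} [CommRing S] [Algebra C S] (hx : Rep x f) (e : R ≃ₐ[C] S) :
    Rep (fun j => e (x j)) f where
  zero i := by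
    have h1 := MvPolynomial.map_aeval x (e.toAlgHom : R →ₐ[C] S).toRingHom (f i)
    have h2 : aeval (fun j => e (x j)) (f i) = e (aeval x (f i)) := by
      have : (aeval (fun j => e (x j)) : MvPolynomial σ C →ₐ[C] S) = e.toAlgHom.comp (aeval x) := by
        apply MvPolynomial.algHom_ext
        intro j
        simp
      rw [this]
      rfl
    rw [h2, hx.zero, map_zero]
  lift E _ _ y hy := by
    obtain ⟨φ, hφ⟩ := hx.lift E y hy
    exact ⟨φ.comp e.symm.toAlgHom, fun j => by simp [hφ]⟩
  ext E _ _ φ ψ h := by
    have := hx.ext E (φ.comp e.toAlgHom) (ψ.comp e.toAlgHom) (fun j => by simpa using h j)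
    ext s
    have h2 := congrArg (fun χ : R →ₐ[C] E => χ (e.symm s)) this
    simpa using h2

/-! ### Standard constructions -/

theorem Rep.poly (hx : Rep x f) :
    Rep (C := C) (R := Polynomial R) (fun j : Option σ => j.elim Polynomial.X (fun i => Polynomial.C (x i)))
      (fun i => rename some (f i)) where
  zero i := by
    rw [aeval_rename]
    have : (aeval ((fun j : Option σ => j.elim Polynomial.X (fun i => Polynomial.C (x i))) ∘ some) :
        MvPolynomial σ C →ₐ[C] Polynomial R) = (Polynomial.CAlgHom (R := C)).comp (aeval x) := by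
      apply MvPolynomial.algHom_ext
      intro j
      simp
    rw [this, AlgHom.comp_apply, hx.zero, map_zero]
  lift E _ _ y hy := by
    obtain ⟨φ, hφ⟩ := hx.lift E (fun j => y (some j)) (fun i => by
      have := hy i
      rwa [aeval_rename] at this)
    let _ : Algebra R E := φ.toRingHom.toAlgebra
    have : IsScalarTower C R E := IsScalarTower.of_algebraMap_eq fun c => (φ.commutes c).symm
    refine ⟨(Polynomial.aeval (R := R) (y none)).restrictScalars C, ?_⟩
    rintro (_ | j)
    · simp
    · simp only [Option.elim_some, AlgHom.restrictScalars_apply, Polynomial.aeval_C]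
      exact hφ j
  ext E _ _ φ ψ h := by
    have h1 : φ.comp (Polynomial.CAlgHom (R := C)) = ψ.comp (Polynomial.CAlgHom (R := C)) :=
      hx.ext E _ _ fun j => by simpa using h (some j)
    have h2 : φ Polynomial.X = ψ Polynomial.X := h none
    exact Polynomial.algHom_ext' h1 h2

theorem Rep.aeval_comp (_ : Rep x f) {E : Type} [CommRing E] [Algebra C E] {y : σ → E}
    {φ : R →ₐ[C] E} (hφ : ∀ j, φ (x j) = y j) (p : MvPolynomial σ C) :
    φ (aeval x p) = aeval y p := by
  have h2 : (φ.comp (aeval x) : MvPolynomial σ C →ₐ[C] E) = aeval y := by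
    apply MvPolynomial.algHom_ext
    intro j
    simp [hφ]
  exact congrArg (fun χ : MvPolynomial σ C →ₐ[C] E => χ p) h2

theorem Rep.quot (hx : Rep x f) {p : MvPolynomial σ C} {r : R} (hr : aeval x p = r) :
    Rep (C := C) (R := R ⧸ Ideal.span {r}) (fun j => Ideal.Quotient.mk _ (x j))
      (fun i : Option ρ => i.elim p f) where
  zero i := by
    have h := fun q => hx.aeval_comp (φ := Ideal.Quotient.mkₐ C (Ideal.span {r}))
      (y := fun j => Ideal.Quotient.mk _ (x j)) (fun j => rfl) q
    rcases i with _ | i
    · simp only [Option.elim_none]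
      rw [← h, hr, Ideal.Quotient.mkₐ_eq_mk, Ideal.Quotient.eq_zero_iff_mem]
      exact Ideal.subset_span rfl
    · simp only [Option.elim_some]
      rw [← h, hx.zero, map_zero]
  lift E _ _ y hy := by
    obtain ⟨φ, hφ⟩ := hx.lift E y (fun i => hy (some i))
    have h1 : φ r = 0 := by
      rw [← hr, hx.aeval_comp hφ]
      exact hy none
    refine ⟨Ideal.Quotient.liftₐ _ φ ?_, fun j => hφ j⟩
    intro a ha
    have : Ideal.span {r} ≤ RingHom.ker φ := by
      rw [Ideal.span_le, Set.singleton_subset_iff]
      exact h1
    exact this ha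
  ext E _ _ φ ψ h := by
    apply Ideal.Quotient.algHom_ext
    apply hx.ext
    intro j
    exact h j

theorem Rep.away (hx : Rep x f) {p : MvPolynomial σ C} {r : R} (hr : aeval x p = r) :
    Rep (C := C) (R := Localization.Away r)
      (fun j : Option σ => j.elim (IsLocalization.Away.invSelf r) (fun i => algebraMap R _ (x i)))
      (fun i : Option ρ => i.elim (rename some p * X none - 1) (fun i => rename some (f i))) where
  zero i := by
    have h := fun q => hx.aeval_comp (φ := IsScalarTower.toAlgHom C R (Localization.Away r))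
      (y := (fun j : Option σ => j.elim (IsLocalization.Away.invSelf r)
        (fun i => algebraMap R (Localization.Away r) (x i))) ∘ some) (fun j => rfl) q
    rcases i with _ | i
    · simp only [Option.elim_none, map_sub, map_mul, map_one, aeval_X, aeval_rename]
      rw [← h, hr, sub_eq_zero]
      exact IsLocalization.Away.mul_invSelf _
    · simp only [Option.elim_some, aeval_rename]
      rw [← h, hx.zero, map_zero]
  lift E _ _ y hy := by
    obtain ⟨φ, hφ⟩ := hx.lift E (fun j => y (some j)) (fun i => by
      have := hy (some i)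
      simp only [Option.elim_some] at this
      rwa [aeval_rename] at this)
    have h1 : φ r * y none = 1 := by
      have h4 := hy none
      simp only [Option.elim_none, map_sub, map_mul, map_one, aeval_X, aeval_rename,
        sub_eq_zero] at h4
      rw [← hr, hx.aeval_comp hφ]
      exact h4
    have hu : IsUnit (φ r) := IsUnit.of_mul_eq_one _ h1
    have hu' : ∀ y : Submonoid.powers r, IsUnit (φ y) := by
      rintro ⟨_, n, rfl⟩
      simp only [map_pow]
      exact hu.pow n
    refine ⟨IsLocalization.liftAlgHom (M := Submonoid.powers r) (f := φ) hu', ?_⟩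
    rintro (_ | j)
    · simp only [Option.elim_none]
      apply hu.mul_left_cancel
      rw [h1]
      have h5 : IsLocalization.liftAlgHom (M := Submonoid.powers r) (f := φ) hu'
        (algebraMap R (Localization.Away r) r) = φ r := by simp
      have h6 : IsLocalization.liftAlgHom (M := Submonoid.powers r) (f := φ) hu'
          (algebraMap R (Localization.Away r) r * IsLocalization.Away.invSelf r) = 1 := by
        rw [IsLocalization.Away.mul_invSelf, map_one]
      rw [map_mul, h5] at h6
      exact h6
    · simp [hφ]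
  ext E _ _ φ ψ h := by
    apply IsLocalization.algHom_ext (Submonoid.powers r)
    apply hx.ext
    intro j
    exact h (some j)

end

end Pool.Agent.Helper45.LG
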