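import Pool.Agent.Helper45.LG.Et

/-!
# From rings to schemes
-/

set_option autoImplicit false

namespace Pool.Agent.Helper45.LG

open AlgebraicGeometry CategoryTheory Limits TopologicalSpace

theorem finiteType_int_iff {R : Type} [CommRing R] :
    Algebra.FiniteType ℤ R ↔ (Int.castRingHom R).FiniteType := by
  have h : Int.castRingHom R = algebraMap ℤ R := RingHom.ext_int _ _
  rw [h]
  exact RingHom.finiteType_algebraMap.symm

theorem arithmetic_of_finiteType {R : Type} [CommRing R] (hR : Algebra.FiniteType ℤ R) :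
    Arithmetic (Spec (CommRingCat.of R)) := by
  refine ⟨Spec.map (CommRingCat.ofHom (Int.castRingHom R)), ?_, inferInstance, inferInstance⟩
  rw [HasRingHomProperty.Spec_iff (P := @LocallyOfFiniteType)]
  exact finiteType_int_iff.1 hR

theorem finiteType_of_arithmetic {R : Type} [CommRing R]
    (h : Arithmetic (Spec (CommRingCat.of R))) : Algebra.FiniteType ℤ R := by
  obtain ⟨f, h1, -, -⟩ := h
  obtain ⟨φ, rfl⟩ := Spec.map_surjective f
  rw [HasRingHomProperty.Spec_iff (P := @LocallyOfFiniteType)] at h1
  have : φ.hom = Int.castRingHom R := RingHom.ext_int _ _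
  rw [this] at h1
  exact finiteType_int_iff.2 h1

/-- the property of rings given by the class `P` -/
def onRings (P : Scheme.{0} → Prop) (R : Type) [CommRing R] : Prop :=
  P (Spec (CommRingCat.of R))

theorem closedOpen_spec (R : Type) [CommRing R] (f : R) :
    ClosedOpen (Spec.map (CommRingCat.ofHom (Ideal.Quotient.mk (Ideal.span {f}))))
      (Spec.map (CommRingCat.ofHom (algebraMap R (Localization.Away f)))) := by
  refine ⟨IsClosedImmersion.spec_of_surjective _ Ideal.Quotient.mk_surjective, inferInstance, ?_⟩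
  have h3 : Set.range (Spec.map (CommRingCat.ofHom (algebraMap R (Localization.Away f)))) =
      (PrimeSpectrum.basicOpen f : Set (PrimeSpectrum R)) :=
    PrimeSpectrum.localization_away_comap_range _ f
  have h4 : Set.range (Spec.map (CommRingCat.ofHom (Ideal.Quotient.mk (Ideal.span {f})))) =
      PrimeSpectrum.zeroLocus {f} := by
    have := range_comap_of_surjective (R ⧸ Ideal.span {f})
      (Ideal.Quotient.mk (Ideal.span {f})) Ideal.Quotient.mk_surjective
    rw [Ideal.mk_ker, PrimeSpectrum.zeroLocus_span] at this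
    exact this
  rw [h3, h4]
  exact PrimeSpectrum.basicOpen_eq_zeroLocus_compl f

theorem ringClosed {P : Scheme.{0} → Prop} (hP : MorinClosed P) : RingClosed (onRings P) where
  iso R S _ _ hR e h := by
    refine hP.iso _ _ (arithmetic_of_finiteType hR) ⟨?_⟩ h
    exact (Scheme.Spec.mapIso e.toCommRingCatIso.symm.op)
  zero R _ hR := hP.empty _ (inferInstanceAs (IsEmpty (PrimeSpectrum R)))
  closed R _ f hR h1 h2 :=
    hP.closed _ _ _ _ _ (arithmetic_of_finiteType hR) (closedOpen_spec R f) h1 h2
  opn R _ f hR h1 h2 :=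
    hP.opn _ _ _ _ _ (arithmetic_of_finiteType hR) (closedOpen_spec R f) h1 h2
  glue R _ f hR h1 h2 :=
    hP.glue _ _ _ _ _ (arithmetic_of_finiteType hR) (closedOpen_spec R f) h1 h2
  poly R _ hR h := hP.line R (arithmetic_of_finiteType hR) h
  summand R _ f hR hf h := by
    refine hP.summand _ _ (Spec.map (CommRingCat.ofHom (Ideal.Quotient.mk (Ideal.span {f}))))
      (arithmetic_of_finiteType hR)
      (IsClosedImmersion.spec_of_surjective _ Ideal.Quotient.mk_surjective) ?_ h
    have hl : IsLocalization.Away (1 - f) (R ⧸ Ideal.span {f}) := by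
      apply IsLocalization.away_of_isIdempotentElem
      · rw [IsIdempotentElem]
        linear_combination hf
      · rw [Ideal.Quotient.algebraMap_eq, Ideal.mk_ker, sub_sub_cancel]
      · exact Ideal.Quotient.mk_surjective
    exact IsOpenImmersion.of_isLocalization (S := R ⧸ Ideal.span {f}) (1 - f)

theorem isPushout_adjoinRoot {R T : Type} [CommRing R] [CommRing T] (g : Polynomial R)
    (u : R →+* T) (i : AdjoinRoot g →+* AdjoinRoot (g.map u))
    (hi : i.comp (AdjoinRoot.of g) = (AdjoinRoot.of (g.map u)).comp u)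
    (hi' : i (AdjoinRoot.root g) = AdjoinRoot.root (g.map u)) :
    IsPushout (CommRingCat.ofHom u) (CommRingCat.ofHom (AdjoinRoot.of g))
      (CommRingCat.ofHom (AdjoinRoot.of (g.map u))) (CommRingCat.ofHom i) := by
  have heq : CommRingCat.ofHom u ≫ CommRingCat.ofHom (AdjoinRoot.of (g.map u)) =
      CommRingCat.ofHom (AdjoinRoot.of g) ≫ CommRingCat.ofHom i := by
    rw [← CommRingCat.ofHom_comp, ← CommRingCat.ofHom_comp, hi]
  have hc : ∀ s : PushoutCocone (CommRingCat.ofHom u) (CommRingCat.ofHom (AdjoinRoot.of g)),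
      s.inl.hom.comp u = s.inr.hom.comp (AdjoinRoot.of g) := by
    intro s
    have := congrArg CommRingCat.Hom.hom s.condition
    exact this
  have h0 : ∀ s : PushoutCocone (CommRingCat.ofHom u) (CommRingCat.ofHom (AdjoinRoot.of g)),
      Polynomial.eval₂ s.inl.hom (s.inr.hom (AdjoinRoot.root g)) (g.map u) = 0 := by
    intro s
    rw [Polynomial.eval₂_map, hc s, ← Polynomial.hom_eval₂, AdjoinRoot.eval₂_root, map_zero]
  refine ⟨⟨heq⟩, ⟨PushoutCocone.IsColimit.mk heq
    (fun s => CommRingCat.ofHom (AdjoinRoot.lift s.inl.hom (s.inr.hom (AdjoinRoot.root g)) (h0 s)))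
    ?_ ?_ ?_⟩⟩
  · intro s
    ext x
    exact AdjoinRoot.lift_of (h0 s)
  · intro s
    apply CommRingCat.hom_ext
    apply AdjoinRoot.ringHom_ext
    · ext x
      have h1 : i (AdjoinRoot.of g x) = AdjoinRoot.of (g.map u) (u x) :=
        congrArg (fun χ : R →+* AdjoinRoot (g.map u) => χ x) hi
      have h2 : s.inl.hom (u x) = s.inr.hom (AdjoinRoot.of g x) :=
        congrArg (fun χ : R →+* s.pt => χ x) (hc s)
      change AdjoinRoot.lift s.inl.hom (s.inr.hom (AdjoinRoot.root g)) (h0 s)
        (i (AdjoinRoot.of g x)) = s.inr.hom (AdjoinRoot.of g x)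
      rw [h1, AdjoinRoot.lift_of, h2]
    · change AdjoinRoot.lift s.inl.hom (s.inr.hom (AdjoinRoot.root g)) (h0 s)
        (i (AdjoinRoot.root g)) = s.inr.hom (AdjoinRoot.root g)
      rw [hi', AdjoinRoot.lift_root]
  · intro s m h1 h2
    apply CommRingCat.hom_ext
    apply AdjoinRoot.ringHom_ext
    · have h3 := congrArg CommRingCat.Hom.hom h1
      ext x
      have h4 := congrArg (fun χ : T →+* s.pt => χ x) h3
      change m.hom (AdjoinRoot.of (g.map u) x) =
        AdjoinRoot.lift s.inl.hom (s.inr.hom (AdjoinRoot.root g)) (h0 s)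
          (AdjoinRoot.of (g.map u) x)
      rw [AdjoinRoot.lift_of]
      exact h4
    · have h3 := congrArg CommRingCat.Hom.hom h2
      have h4 := congrArg (fun χ : AdjoinRoot g →+* s.pt => χ (AdjoinRoot.root g)) h3
      change m.hom (AdjoinRoot.root (g.map u)) =
        AdjoinRoot.lift s.inl.hom (s.inr.hom (AdjoinRoot.root g)) (h0 s)
          (AdjoinRoot.root (g.map u))
      rw [AdjoinRoot.lift_root, ← hi']
      exact h4

/-- the fibre powers of a Galois covering -/
theorem fibrePower_spec {P : Scheme.{0} → Prop} (hP : MorinClosed P) {R : Type} [CommRing R]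
    {g : Polynomial R} (hR : Algebra.FiniteType ℤ R)
    (hu : IsUnit (Polynomial.aeval (AdjoinRoot.root g) (Polynomial.derivative g)))
    (hs : ∃ s : Multiset (AdjoinRoot g), g.map (AdjoinRoot.of g) =
      (s.map fun a => Polynomial.X - Polynomial.C a).prod)
    (hQ : onRings P (AdjoinRoot g)) (n : ℕ) :
    ∃ (T : Type) (_ : CommRing T) (j : AdjoinRoot g →+* T)
      (e : (fibrePower (Spec.map (CommRingCat.ofHom (AdjoinRoot.of g))) n).left ≅
        Spec (CommRingCat.of T)),
      (fibrePower (Spec.map (CommRingCat.ofHom (AdjoinRoot.of g))) n).hom =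
        e.hom ≫ Spec.map (CommRingCat.ofHom (j.comp (AdjoinRoot.of g))) ∧
      Algebra.FiniteType ℤ T ∧ onRings P T := by
  induction n with
  | zero =>
    refine ⟨AdjoinRoot g, inferInstance, RingHom.id _, Iso.refl _, ?_, ?_, hQ⟩
    · rw [RingHom.id_comp]
      exact (Category.id_comp _).symm
    · exact Algebra.FiniteType.trans (S := R) hR inferInstance
  | succ n ih =>
    obtain ⟨T, _, j, e, h1, hT, h2⟩ := ih
    let u : R →+* T := j.comp (AdjoinRoot.of g)
    have h0 : Polynomial.eval₂ ((AdjoinRoot.of (g.map u)).comp u) (AdjoinRoot.root (g.map u)) g =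
        0 := by
      rw [← Polynomial.eval₂_map]
      exact AdjoinRoot.eval₂_root _
    let i : AdjoinRoot g →+* AdjoinRoot (g.map u) :=
      AdjoinRoot.lift ((AdjoinRoot.of (g.map u)).comp u) (AdjoinRoot.root (g.map u)) h0
    have hpo := isPushout_adjoinRoot g u i (by
      ext x
      exact AdjoinRoot.lift_of h0) (AdjoinRoot.lift_root h0)
    have hpb := isPullback_SpecMap_of_isPushout _ _ _ _ hpo
    have hpb' : IsPullback (Spec.map (CommRingCat.ofHom (AdjoinRoot.of (g.map u))) ≫ e.inv)
        (Spec.map (CommRingCat.ofHom i))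
        (fibrePower (Spec.map (CommRingCat.ofHom (AdjoinRoot.of g))) n).hom
        (Spec.map (CommRingCat.ofHom (AdjoinRoot.of g))) := by
      refine IsPullback.of_iso hpb (Iso.refl _) e.symm (Iso.refl _) (Iso.refl _) ?_ ?_ ?_ ?_
      · simp
      · simp
      · rw [h1]
        simp [u]
      · simp
    have hT' : Algebra.FiniteType ℤ (AdjoinRoot (g.map u)) :=
      Algebra.FiniteType.trans (S := T) hT inferInstance
    refine ⟨AdjoinRoot (g.map u), inferInstance, (AdjoinRoot.of (g.map u)).comp j,
      hpb'.isoPullback.symm, ?_, hT', ?_⟩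
    · have hF : e.inv ≫ (fibrePower (Spec.map (CommRingCat.ofHom (AdjoinRoot.of g))) n).hom =
          Spec.map (CommRingCat.ofHom u) := by
        rw [Iso.inv_comp_eq]
        exact h1
      have h3 : pullback.fst (fibrePower (Spec.map (CommRingCat.ofHom (AdjoinRoot.of g))) n).hom
          (Spec.map (CommRingCat.ofHom (AdjoinRoot.of g))) ≫
          (fibrePower (Spec.map (CommRingCat.ofHom (AdjoinRoot.of g))) n).hom =
          hpb'.isoPullback.inv ≫ Spec.map (CommRingCat.ofHom (AdjoinRoot.of (g.map u))) ≫
            Spec.map (CommRingCat.ofHom u) := by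
        rw [← hF, ← hpb'.isoPullback_inv_fst]
        simp only [Category.assoc]
      rw [← Spec.map_comp, ← CommRingCat.ofHom_comp] at h3
      exact h3
    · obtain ⟨s, hs⟩ := hs
      have h3 : g.map u = ((s.map j).map fun a => Polynomial.X - Polynomial.C a).prod := by
        have h4 := congrArg (Polynomial.map j) hs
        rw [Polynomial.map_map, Polynomial.map_multiset_prod, Multiset.map_map] at h4
        rw [Multiset.map_map, h4]
        congr 1
        apply Multiset.map_congr rfl
        intro a _
        simp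
      have h4 := (ringClosed hP).quot_split hT h2 (s.map j)
        (fun a t hat => unit_of_root hu hs j a t hat)
      rw [← h3] at h4
      exact h4

theorem morinRings {P : Scheme.{0} → Prop} (hP : MorinClosed P) : MorinRings (onRings P) where
  toRingClosed := ringClosed hP
  gal R _ g hR hg hdeg hu hs h := by
    refine hP.etale _ _ (Spec.map (CommRingCat.ofHom (AdjoinRoot.of g)))
      (arithmetic_of_finiteType hR) ?_ ?_ ?_ ?_
    · rw [IsFinite.SpecMap_iff]
      have := hg.finite_adjoinRoot
      exact RingHom.finite_algebraMap.2 this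
    · rw [HasRingHomProperty.Spec_iff (P := @Etale)]
      exact RingHom.etale_algebraMap.2 (etale_adjoinRoot hg hu)
    · refine ⟨?_⟩
      have hfin := hg.finite_adjoinRoot
      have hint : (AdjoinRoot.of g).IsIntegral :=
        algebraMap_isIntegral_iff.2 (inferInstanceAs (Algebra.IsIntegral R (AdjoinRoot g)))
      exact hint.comap_surjective (of_injective hg hdeg)
    · intro n
      obtain ⟨T, _, j, e, -, hT, h2⟩ := fibrePower_spec hP hR hu hs h n
      exact hP.iso _ _ (arithmetic_of_finiteType hT) ⟨e.symm⟩ h2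
  numberRing F _ _ := hP.numberRing F
  finiteField k _ hk := hP.finiteField k

end Pool.Agent.Helper45.LG
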