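import Pool.Agent.Helper45.LG.Rep
import Pool.Agent.Helper45.LG.Defs

/-!
# Spreading out of linear algebras
-/

set_option autoImplicit false

namespace Pool.Agent.Helper45.LG

open MvPolynomial Filter

/-- A class of (finitely generated) rings closed under the affine operations. -/
structure RingClosed (Q : ∀ (R : Type) [CommRing R], Prop) : Prop where
  iso : ∀ (R S : Type) [CommRing R] [CommRing S], Algebra.FiniteType ℤ R → (R ≃+* S) → Q R → Q S
  zero : ∀ (R : Type) [CommRing R], Subsingleton R → Q R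
  glue : ∀ (R : Type) [CommRing R] (f : R), Algebra.FiniteType ℤ R → Q (R ⧸ Ideal.span {f}) →
    Q (Localization.Away f) → Q R
  closed : ∀ (R : Type) [CommRing R] (f : R), Algebra.FiniteType ℤ R → Q R →
    Q (Localization.Away f) → Q (R ⧸ Ideal.span {f})
  opn : ∀ (R : Type) [CommRing R] (f : R), Algebra.FiniteType ℤ R → Q R →
    Q (R ⧸ Ideal.span {f}) → Q (Localization.Away f)
  poly : ∀ (R : Type) [CommRing R], Algebra.FiniteType ℤ R → Q R → Q (Polynomial R)
  summand : ∀ (R : Type) [CommRing R] (f : R), Algebra.FiniteType ℤ R → f * f = f → Q R →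
    Q (R ⧸ Ideal.span {f})

/-- A class of finitely generated rings which is closed under the affine operations and under
monogenic finite etale Galois descent, and contains the number rings and the finite fields. -/
structure MorinRings (Q : ∀ (R : Type) [CommRing R], Prop) : Prop extends RingClosed Q where
  gal : ∀ (R : Type) [CommRing R] (g : Polynomial R), Algebra.FiniteType ℤ R → g.Monic →
    0 < g.natDegree → IsUnit (Polynomial.aeval (AdjoinRoot.root g) (Polynomial.derivative g)) →
    (∃ s : Multiset (AdjoinRoot g), g.map (AdjoinRoot.of g) =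
      (s.map fun a => Polynomial.X - Polynomial.C a).prod) → Q (AdjoinRoot g) → Q R
  numberRing : ∀ (F : Type) [Field F] [NumberField F], Q (NumberField.RingOfIntegers F)
  finiteField : ∀ (k : Type) [Field k], Finite k → Q k

section

variable {K : Type} [Field K] {σ ρ τ π : Type}

/-- polynomials over the subring `B` -/
abbrev Mv (B : Subring K) (σ : Type) : Type := MvPolynomial σ B

/-- `g` has coefficients in the subring `B` and is equal to `f` -/
def Lifts (B : Subring K) (f : ρ → MvPolynomial σ K) (g : ρ → Mv B σ) : Prop :=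
  ∀ i, map B.subtype (g i) = f i

theorem map_inj (B : Subring K) :
    Function.Injective (map B.subtype : Mv B σ → MvPolynomial σ K) :=
  map_injective _ Subtype.val_injective

variable {l : Filter (Subring K)}

theorem exists_lift (hl : ∀ x : K, ∀ᶠ B in l, x ∈ B) (p : MvPolynomial σ K) :
    ∀ᶠ B in l, ∃ q : Mv B σ, map B.subtype q = p := by
  have h : ∀ᶠ B in l, ∀ m ∈ p.support, p.coeff m ∈ B := by
    rw [eventually_all_finset]
    exact fun m _ => hl _
  filter_upwards [h] with B hB
  have : p ∈ Set.range (map B.subtype : Mv B σ →+* MvPolynomial σ K) := by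
    rw [mem_range_map_iff_coeffs_subset]
    intro c hc
    rw [Finset.mem_coe, mem_coeffs_iff] at hc
    obtain ⟨m, hm, rfl⟩ := hc
    exact ⟨⟨_, hB m hm⟩, rfl⟩
  obtain ⟨q, hq⟩ := this
  exact ⟨q, hq⟩

theorem exists_lifts [Finite ρ] (hl : ∀ x : K, ∀ᶠ B in l, x ∈ B) (f : ρ → MvPolynomial σ K) :
    ∀ᶠ B in l, ∃ g : ρ → Mv B σ, Lifts B f g := by
  have : ∀ᶠ B in l, ∀ i, ∃ q : Mv B σ, map B.subtype q = f i := by
    rw [eventually_all]
    exact fun i => exists_lift hl (f i)
  filter_upwards [this] with B hB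
  choose g hg using hB
  exact ⟨g, hg⟩

theorem mem_eventually [Finite ρ] (hl : ∀ x : K, ∀ᶠ B in l, x ∈ B) {f : ρ → MvPolynomial σ K}
    {p : MvPolynomial σ K} (hp : p ∈ Ideal.span (Set.range f)) :
    ∀ᶠ B in l, ∀ g : ρ → Mv B σ, Lifts B f g → ∀ q : Mv B σ,
      map B.subtype q = p → q ∈ Ideal.span (Set.range g) := by
  cases nonempty_fintype ρ
  obtain ⟨c, hc⟩ := (Submodule.mem_span_range_iff_exists_fun _).1 hp
  filter_upwards [exists_lifts hl c] with B hB g hg q hq
  obtain ⟨c', hc'⟩ := hB
  refine (Submodule.mem_span_range_iff_exists_fun _).2 ⟨c', ?_⟩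
  apply map_inj B
  rw [hq, ← hc, map_sum]
  refine Finset.sum_congr rfl fun i _ => ?_
  rw [smul_eq_mul, smul_eq_mul, map_mul, hg i, hc' i]

theorem mk_eventually [Finite ρ] [Finite π] (hl : ∀ x : K, ∀ᶠ B in l, x ∈ B)
    {f : ρ → MvPolynomial σ K} {p : π → MvPolynomial σ K}
    (hp : ∀ i, p i ∈ Ideal.span (Set.range f)) :
    ∀ᶠ B in l, ∀ g : ρ → Mv B σ, Lifts B f g → ∀ i, ∀ q : Mv B σ,
      map B.subtype q = p i → q ∈ Ideal.span (Set.range g) := by
  have : ∀ᶠ B in l, ∀ i, ∀ g : ρ → Mv B σ, Lifts B f g → ∀ q : Mv B σ,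
      map B.subtype q = p i → q ∈ Ideal.span (Set.range g) := by
    rw [eventually_all]
    exact fun i => mem_eventually hl (hp i)
  filter_upwards [this] with B hB g hg i q hq
  exact hB i g hg q hq

theorem aeval_mk {C : Type} [CommRing C] (g : ρ → MvPolynomial τ C) (u : σ → MvPolynomial τ C)
    (p : MvPolynomial σ C) :
    aeval (fun i => (Ideal.Quotient.mk (Ideal.span (Set.range g)) (u i) : Std g)) p =
      Ideal.Quotient.mk (Ideal.span (Set.range g)) (bind₁ u p) := by
  have : (aeval (fun i => (Ideal.Quotient.mk (Ideal.span (Set.range g)) (u i) : Std g)) :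
      MvPolynomial σ C →ₐ[C] Std g) = (Ideal.Quotient.mkₐ C _).comp (bind₁ u) := by
    apply MvPolynomial.algHom_ext
    intro j
    simp
  rw [this]
  rfl

/-- two presentations of the same algebra give isomorphic models over all large subrings -/
theorem indep [Finite ρ] [Finite π] [Finite σ] [Finite τ] (hl : ∀ x : K, ∀ᶠ B in l, x ∈ B)
    {R : Type} [CommRing R] [Algebra K R] {x : σ → R} {f : ρ → MvPolynomial σ K} {y : τ → R}
    {g : π → MvPolynomial τ K} (hx : Rep x f) (hy : Rep y g) :
    ∀ᶠ B in l, ∀ f' : ρ → Mv B σ, Lifts B f f' → ∀ g' : π → Mv B τ,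
      Lifts B g g' → Nonempty (Std f' ≃+* Std g') := by
  choose u hu using fun i => hy.surj (x i)
  choose v hv using fun j => hx.surj (y j)
  have e1 : ∀ p : MvPolynomial σ K, aeval y (bind₁ u p) = aeval x p := by
    intro p
    have : (aeval y : MvPolynomial τ K →ₐ[K] R).comp (bind₁ u) = aeval x := by
      apply MvPolynomial.algHom_ext
      intro j
      simp [hu]
    exact congrArg (fun χ : MvPolynomial σ K →ₐ[K] R => χ p) this
  have e2 : ∀ p : MvPolynomial τ K, aeval x (bind₁ v p) = aeval y p := by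
    intro p
    have : (aeval x : MvPolynomial σ K →ₐ[K] R).comp (bind₁ v) = aeval y := by
      apply MvPolynomial.algHom_ext
      intro j
      simp [hv]
    exact congrArg (fun χ : MvPolynomial τ K →ₐ[K] R => χ p) this
  have m1 : ∀ k, bind₁ u (f k) ∈ Ideal.span (Set.range g) := fun k =>
    hy.mem_span (by rw [e1, hx.zero])
  have m2 : ∀ k, bind₁ v (g k) ∈ Ideal.span (Set.range f) := fun k =>
    hx.mem_span (by rw [e2, hy.zero])
  have m3 : ∀ i, bind₁ v (u i) - X i ∈ Ideal.span (Set.range f) := fun i =>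
    hx.mem_span (by rw [map_sub, e2, hu, aeval_X, sub_self])
  have m4 : ∀ j, bind₁ u (v j) - X j ∈ Ideal.span (Set.range g) := fun j =>
    hy.mem_span (by rw [map_sub, e1, hv, aeval_X, sub_self])
  filter_upwards [exists_lifts hl u, exists_lifts hl v, mk_eventually hl m1, mk_eventually hl m2,
    mk_eventually hl m3, mk_eventually hl m4] with B hu' hv' h1 h2 h3 h4 f' hf' g' hg'
  obtain ⟨u', hu'⟩ := hu'
  obtain ⟨v', hv'⟩ := hv'
  have hbu : ∀ p : Mv B σ, map B.subtype (bind₁ u' p) = bind₁ u (map B.subtype p) := by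
    intro p
    rw [map_bind₁]
    congr 2
    ext1 i
    exact hu' i
  have hbv : ∀ p : Mv B τ, map B.subtype (bind₁ v' p) = bind₁ v (map B.subtype p) := by
    intro p
    rw [map_bind₁]
    congr 2
    ext1 i
    exact hv' i
  obtain ⟨φ, hφ⟩ := (rep_std f').lift (Std g')
    (fun i => Ideal.Quotient.mk (Ideal.span (Set.range g')) (u' i)) (fun k => by
      rw [aeval_mk, Ideal.Quotient.eq_zero_iff_mem]
      exact h1 g' hg' k _ (by rw [hbu, hf' k]))
  obtain ⟨ψ, hψ⟩ := (rep_std g').lift (Std f')
    (fun i => Ideal.Quotient.mk (Ideal.span (Set.range f')) (v' i)) (fun k => by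
      rw [aeval_mk, Ideal.Quotient.eq_zero_iff_mem]
      exact h2 f' hf' k _ (by rw [hbv, hg' k]))
  have c1 : ∀ p : Mv B σ, φ (Ideal.Quotient.mk _ p) =
      Ideal.Quotient.mk (Ideal.span (Set.range g')) (bind₁ u' p) := by
    intro p
    rw [← aeval_mk, ← (rep_std f').aeval_comp hφ]
    congr 1
    rw [aeval_mk]
    congr 1
    exact (congrArg (fun χ : Mv B σ →ₐ[B] Mv B σ => χ p)
      (bind₁_X_left (R := B) (σ := σ))).symm
  have c2 : ∀ p : Mv B τ, ψ (Ideal.Quotient.mk _ p) =
      Ideal.Quotient.mk (Ideal.span (Set.range f')) (bind₁ v' p) := by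
    intro p
    rw [← aeval_mk, ← (rep_std g').aeval_comp hψ]
    congr 1
    rw [aeval_mk]
    congr 1
    exact (congrArg (fun χ : Mv B τ →ₐ[B] Mv B τ => χ p)
      (bind₁_X_left (R := B) (σ := τ))).symm
  have c3 : φ.comp ψ = AlgHom.id B _ := by
    apply (rep_std g').ext
    intro j
    change φ (ψ _) = Ideal.Quotient.mk _ (X j)
    rw [hψ, c1, Ideal.Quotient.eq]
    exact h4 g' hg' j _ (by rw [map_sub, hbu, hv' j, map_X])
  have c4 : ψ.comp φ = AlgHom.id B _ := by
    apply (rep_std f').ext
    intro i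
    change ψ (φ _) = Ideal.Quotient.mk _ (X i)
    rw [hφ, c2, Ideal.Quotient.eq]
    exact h3 f' hf' i _ (by rw [map_sub, hbv, hu' i, map_X])
  exact ⟨(AlgEquiv.ofAlgHom φ ψ c3 c4).toRingEquiv⟩

/-- finitely generated subrings -/
abbrev FT (B : Subring K) : Prop := Algebra.FiniteType ℤ B

/-- the models of `R` over all large subrings `B` have the property `Q` -/
def Spread (Q : ∀ (R : Type) [CommRing R], Prop) (l : Filter (Subring K)) (R : Type) [CommRing R]
    [Algebra K R] : Prop :=
  ∀ (σ ρ : Type) [Finite σ] [Finite ρ] (x : σ → R) (f : ρ → MvPolynomial σ K), Rep x f →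
    ∀ᶠ B in l, ∀ g : ρ → Mv B σ, Lifts B f g → Q (Std g)

theorem finiteType_std {C : Type} [CommRing C] [Finite σ] (hC : Algebra.FiniteType ℤ C)
    (g : ρ → MvPolynomial σ C) : Algebra.FiniteType ℤ (Std g) := by
  have h1 : Algebra.FiniteType C (Std g) := inferInstance
  exact Algebra.FiniteType.trans (S := C) hC h1

theorem finiteType_of_surj {R S : Type} [CommRing R] [CommRing S] (h : Algebra.FiniteType ℤ R)
    (φ : R →+* S) (hφ : Function.Surjective φ) : Algebra.FiniteType ℤ S :=
  Algebra.FiniteType.of_surjective φ.toIntAlgHom hφ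

theorem finiteType_poly {R : Type} [CommRing R] (h : Algebra.FiniteType ℤ R) :
    Algebra.FiniteType ℤ (Polynomial R) :=
  Algebra.FiniteType.trans (S := R) h inferInstance

theorem finiteType_quot {R : Type} [CommRing R] (h : Algebra.FiniteType ℤ R) (I : Ideal R) :
    Algebra.FiniteType ℤ (R ⧸ I) :=
  Algebra.FiniteType.trans (S := R) h inferInstance

theorem finiteType_away {R : Type} [CommRing R] (h : Algebra.FiniteType ℤ R) (r : R) :
    @Algebra.FiniteType ℤ (Localization.Away r) _ _ (Ring.toIntAlgebra _) := by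
  have h1 : Algebra.FiniteType ℤ (Localization.Away r) := Algebra.FiniteType.trans (S := R) h
    (IsLocalization.finiteType_of_monoid_fg (Submonoid.powers r) _)
  have h2 : (Ring.toIntAlgebra (Localization.Away r)) =
      (OreLocalization.instAlgebra : Algebra ℤ (Localization.Away r)) := Subsingleton.elim _ _
  rw [h2]
  exact h1

variable {Q : ∀ (R : Type) [CommRing R], Prop}

theorem Spread.of_one [Finite σ] [Finite ρ] (hQ : RingClosed Q) (hl : ∀ x : K, ∀ᶠ B in l, x ∈ B)
    (hft : ∀ᶠ B in l, FT B) {R : Type} [CommRing R] [Algebra K R] {x : σ → R}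
    {f : ρ → MvPolynomial σ K} (hx : Rep x f)
    (h : ∀ᶠ B in l, ∀ g : ρ → Mv B σ, Lifts B f g → Q (Std g)) : Spread Q l R := by
  intro τ π _ _ y g hy
  filter_upwards [h, indep hl hx hy, exists_lifts hl f, hft] with B h1 h2 h3 h4 g' hg'
  obtain ⟨f', hf'⟩ := h3
  obtain ⟨e⟩ := h2 f' hf' g' hg'
  exact hQ.iso _ _ (finiteType_std h4 f') e (h1 f' hf')

theorem exists_rep {R : Type} [CommRing R] [Algebra K R] (h : Algebra.FiniteType K R) :
    ∃ (n m : ℕ) (x : Fin n → R) (f : Fin m → MvPolynomial (Fin n) K), Rep x f := by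
  obtain ⟨n, φ, hφ⟩ := Algebra.FiniteType.iff_quotient_mvPolynomial''.1 h
  obtain ⟨S, hS⟩ := (isNoetherianRing_iff_ideal_fg _).1 inferInstance (RingHom.ker φ)
  obtain ⟨m, f, hf⟩ : ∃ (m : ℕ) (f : Fin m → MvPolynomial (Fin n) K),
      Set.range f = (S : Set (MvPolynomial (Fin n) K)) := by
    refine ⟨S.card, fun i => (S.equivFin.symm i : MvPolynomial (Fin n) K), ?_⟩
    ext p
    constructor
    · rintro ⟨i, rfl⟩
      exact (S.equivFin.symm i).2
    · intro hp
      exact ⟨S.equivFin ⟨p, hp⟩, by simp⟩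
  have hk : Ideal.span (Set.range f) = RingHom.ker φ := by rw [hf, hS]
  let e : Std f ≃ₐ[K] R :=
    (Ideal.quotientEquivAlgOfEq K hk).trans (Ideal.quotientKerAlgEquivOfSurjective hφ)
  exact ⟨n, m, _, f, (rep_std f).transport e⟩

theorem std_unique {C : Type} [CommRing C] {g g' : ρ → MvPolynomial σ C} (h : g = g') :
    Nonempty (Std g ≃+* Std g') := by
  subst h
  exact ⟨RingEquiv.refl _⟩

theorem lifts_unique {B : Subring K} {f : ρ → MvPolynomial σ K} {g g' : ρ → Mv B σ}
    (h : Lifts B f g) (h' : Lifts B f g') : g = g' := by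
  funext i
  apply map_inj B
  rw [h i, h' i]

theorem map_rename_some {B : Subring K} (p : Mv B σ) :
    map B.subtype (rename (some : σ → Option σ) p) = rename some (map B.subtype p) :=
  map_rename _ _ _

theorem Spread.poly (hQ : RingClosed Q) (hl : ∀ x : K, ∀ᶠ B in l, x ∈ B)
    (hft : ∀ᶠ B in l, FT B) {R : Type} [CommRing R] [Algebra K R]
    (hR : Algebra.FiniteType K R) (h : Spread Q l R) : Spread Q l (Polynomial R) := by
  obtain ⟨n, m, x, f, hx⟩ := exists_rep hR
  refine Spread.of_one hQ hl hft hx.poly ?_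
  filter_upwards [h _ _ x f hx, exists_lifts hl f, hft] with B h1 h2 h3 g hg
  obtain ⟨f', hf'⟩ := h2
  have hg' : Lifts B (fun i => rename some (f i)) (fun i => rename some (f' i)) := fun i => by
    rw [map_rename_some, hf' i]
  rw [lifts_unique hg hg']
  obtain ⟨e, -⟩ := (rep_std f').poly.equiv (rep_std _)
  have h4 := finiteType_std h3 f'
  exact hQ.iso _ _ (finiteType_poly h4) e.toRingEquiv (hQ.poly _ h4 (h1 f' hf'))

/-- compatible models of `R`, `R/r` and `R_r` -/
theorem triple (hQ : RingClosed Q) (hl : ∀ x : K, ∀ᶠ B in l, x ∈ B)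
    (hft : ∀ᶠ B in l, FT B) {R : Type} [CommRing R] [Algebra K R]
    (hR : Algebra.FiniteType K R) (r : R) :
    ∃ (M : Subring K → Type) (_ : ∀ B, CommRing (M B)) (s : ∀ B, M B),
      (∀ᶠ B in l, Algebra.FiniteType ℤ (M B)) ∧
      (r * r = r → ∀ᶠ B in l, s B * s B = s B) ∧
      (Spread Q l R ↔ ∀ᶠ B in l, Q (M B)) ∧
      (Spread Q l (R ⧸ Ideal.span {r}) ↔ ∀ᶠ B in l, Q (M B ⧸ Ideal.span {s B})) ∧
      (Spread Q l (Localization.Away r) ↔ ∀ᶠ B in l, Q (Localization.Away (s B))) := by
  classical
  obtain ⟨n, m, x, f, hx⟩ := exists_rep hR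
  obtain ⟨p, hp⟩ := hx.surj r
  let F : ∀ B : Subring K, Fin m → Mv B (Fin n) := fun B =>
    if h : ∃ g : Fin m → Mv B (Fin n), Lifts B f g then h.choose else 0
  have hF : ∀ᶠ B in l, Lifts B f (F B) := by
    filter_upwards [exists_lifts hl f] with B hB
    simp only [F, dif_pos hB]
    exact hB.choose_spec
  let P : ∀ B : Subring K, Mv B (Fin n) := fun B =>
    if h : ∃ q : Mv B (Fin n), map B.subtype q = p then h.choose else 0
  have hP : ∀ᶠ B in l, map B.subtype (P B) = p := by
    filter_upwards [exists_lift hl p] with B hB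
    simp only [P, dif_pos hB]
    exact hB.choose_spec
  refine ⟨fun B => Std (F B), inferInstance, fun B => Ideal.Quotient.mk _ (P B), ?_, ?_, ?_, ?_, ?_⟩
  · filter_upwards [hft] with B hB
    exact finiteType_std hB _
  · intro hr
    have h1 : p * p - p ∈ Ideal.span (Set.range f) := hx.mem_span (by
      rw [map_sub, map_mul, hp, hr, sub_self])
    filter_upwards [hF, hP, mem_eventually hl h1] with B h2 h3 h4
    rw [← map_mul, Ideal.Quotient.eq]
    exact h4 _ h2 _ (by rw [map_sub, map_mul, h3])
  · constructor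
    · intro h
      filter_upwards [h _ _ x f hx, hF] with B h1 h2
      exact h1 _ h2
    · intro h
      refine Spread.of_one hQ hl hft hx ?_
      filter_upwards [h, hF] with B h1 h2 g hg
      rw [lifts_unique hg h2]
      exact h1
  · have key : ∀ᶠ B in l, Lifts B (fun i : Option (Fin m) => i.elim p f)
        (fun i => i.elim (P B) (F B)) ∧
        Nonempty (Std (fun i : Option (Fin m) => i.elim (P B) (F B)) ≃+*
          Std (F B) ⧸ Ideal.span {(Ideal.Quotient.mk (Ideal.span (Set.range (F B))) (P B))}) := by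
      filter_upwards [hF, hP] with B h1 h2
      constructor
      · rintro (_ | i)
        · exact h2
        · exact h1 i
      · obtain ⟨e, -⟩ := (rep_std _).equiv ((rep_std (F B)).quot (p := P B) (r :=
          Ideal.Quotient.mk (Ideal.span (Set.range (F B))) (P B)) (by
            rw [aeval_mk]
            congr 1
            exact congrArg (fun χ : Mv B (Fin n) →ₐ[B] Mv B (Fin n) => χ (P B))
              (bind₁_X_left (R := B) (σ := Fin n))))
        exact ⟨e.toRingEquiv⟩
    constructor
    · intro h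
      filter_upwards [h _ _ _ _ (hx.quot hp), key, hft] with B h1 h2 h3
      obtain ⟨h4, ⟨e⟩⟩ := h2
      exact hQ.iso _ _ (finiteType_std h3 _) e (h1 _ h4)
    · intro h
      refine Spread.of_one hQ hl hft (hx.quot hp) ?_
      filter_upwards [h, key, hft] with B h1 h2 h3 g hg
      obtain ⟨h4, ⟨e⟩⟩ := h2
      rw [lifts_unique hg h4]
      have h5 := finiteType_std h3 (F B)
      exact hQ.iso _ _ (finiteType_quot h5 _) e.symm h1
  · have key : ∀ᶠ B in l, Lifts B (fun i : Option (Fin m) => i.elim (rename some p * X none - 1)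
          (fun i => rename some (f i)))
        (fun i => i.elim (rename some (P B) * X none - 1) (fun i => rename some (F B i))) ∧
        Nonempty (Std (fun i : Option (Fin m) => i.elim (rename some (P B) * X none - 1)
          (fun i => rename some (F B i))) ≃+*
          Localization.Away (Ideal.Quotient.mk (Ideal.span (Set.range (F B))) (P B))) := by
      filter_upwards [hF, hP] with B h1 h2
      constructor
      · rintro (_ | i)
        · simp only [Option.elim_none, map_sub, map_mul, map_one, map_X]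
          rw [map_rename_some, h2]
        · simp only [Option.elim_some]
          rw [map_rename_some, h1 i]
      · obtain ⟨e, -⟩ := (rep_std _).equiv ((rep_std (F B)).away (p := P B) (r :=
          Ideal.Quotient.mk (Ideal.span (Set.range (F B))) (P B)) (by
            rw [aeval_mk]
            congr 1
            exact congrArg (fun χ : Mv B (Fin n) →ₐ[B] Mv B (Fin n) => χ (P B))
              (bind₁_X_left (R := B) (σ := Fin n))))
        exact ⟨e.toRingEquiv⟩
    constructor
    · intro h
      filter_upwards [h _ _ _ _ (hx.away hp), key, hft] with B h1 h2 h3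
      obtain ⟨h4, ⟨e⟩⟩ := h2
      exact hQ.iso _ _ (finiteType_std h3 _) e (h1 _ h4)
    · intro h
      refine Spread.of_one hQ hl hft (hx.away hp) ?_
      filter_upwards [h, key, hft] with B h1 h2 h3 g hg
      obtain ⟨h4, ⟨e⟩⟩ := h2
      rw [lifts_unique hg h4]
      have h5 := finiteType_std h3 (F B)
      exact hQ.iso _ _ (finiteType_away h5 _) e.symm h1

end

end Pool.Agent.Helper45.LG
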